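import Pool.Agent.Lib_MP_f5471b_cm.IntF

/-!
# Piece BACKA: lattices stable under omega, bases
-/

set_option autoImplicit false

namespace LangCM

open Matrix LangForms

variable {τ ν : ℤ} {g : ℕ}

/-- Membership of the scalar multiples. -/
private theorem BACKA_smul (Λ : Submodule ℤ (Fin (g * 2) → ℤ))
    (hJ : ∀ v ∈ Λ, (TT ((⟨0, 1⟩ : Oq τ ν) • (1 : Matrix (Fin g) (Fin g) (Oq τ ν)))).mulVec v ∈ Λ)
    (c : Oq τ ν) (v : Fin (g * 2) → ℤ) (hv : v ∈ Λ) :
    ∃ w ∈ Λ, th τ ν w = c • th τ ν v := by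
  refine ⟨TT (c • (1 : Matrix (Fin g) (Fin g) (Oq τ ν))) *ᵥ v, ?_, ?_⟩
  · rw [TT_smul_one, Matrix.add_mulVec, Matrix.smul_mulVec, Matrix.smul_mulVec, Matrix.one_mulVec]
    exact Λ.add_mem (Λ.smul_mem _ hv) (Λ.smul_mem _ (hJ v hv))
  · rw [th_TT, Matrix.smul_mulVec, Matrix.one_mulVec]

/-- The `O`-submodule of `O ^ g` attached to a lattice stable under `ω`. PROOF. Take the image of
`Λ` under `th`; closed under multiplication by `⟨a, b⟩ = a + b ω` because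
`th (TT (ω • 1) *ᵥ v) = ω • th v` (`th_TT`). -/
theorem exists_sub (Λ : Submodule ℤ (Fin (g * 2) → ℤ))
    (hJ : ∀ v ∈ Λ, (TT ((⟨0, 1⟩ : Oq τ ν) • (1 : Matrix (Fin g) (Fin g) (Oq τ ν)))).mulVec v ∈ Λ) :
    ∃ L : Submodule (Oq τ ν) (Fin g → Oq τ ν), ∀ v, th τ ν v ∈ L ↔ v ∈ Λ := by
  refine ⟨{ carrier := {z | ∃ w ∈ Λ, th τ ν w = z}, zero_mem' := ?_, add_mem' := ?_,
            smul_mem' := ?_ }, ?_⟩
  · rintro _ _ ⟨w, hw, rfl⟩ ⟨w', hw', rfl⟩
    exact ⟨w + w', Λ.add_mem hw hw', th_add w w'⟩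
  · refine ⟨0, Λ.zero_mem, ?_⟩
    have h := th_smul (τ := τ) (ν := ν) (0 : ℤ) (0 : Fin (g * 2) → ℤ)
    rwa [zero_smul, zero_smul] at h
  · rintro c _ ⟨w, hw, rfl⟩
    exact BACKA_smul Λ hJ c w hw
  · intro v
    constructor
    · rintro ⟨w, hw, h⟩
      rwa [← th_bij.1 h]
    · intro hv
      exact ⟨v, hv, rfl⟩

/-- Multiplication by `2 ω - τ`. -/
private def BACKA_e (L : Submodule (Oq τ ν) (Fin g → Oq τ ν)) :
    (L.restrictScalars ℤ) →ₗ[ℤ] (L.restrictScalars ℤ) where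
  toFun x := ⟨(⟨-τ, 2⟩ : Oq τ ν) • x.1, L.smul_mem _ x.2⟩
  map_add' _ _ := Subtype.ext (smul_add _ _ _)
  map_smul' _ _ := Subtype.ext (smul_comm _ _ _)

private theorem BACKA_sq (L : Submodule (Oq τ ν) (Fin g → Oq τ ν)) :
    BACKA_e L * BACKA_e L = (τ ^ 2 - 4 * ν) • (1 : Module.End ℤ (L.restrictScalars ℤ)) := by
  have hc : ∀ n : ℤ, n = τ ^ 2 - 4 * ν → (⟨-τ, 2⟩ : Oq τ ν) * ⟨-τ, 2⟩ = (n : Oq τ ν) := by
    intro n hn
    ext
    · simp only [QuadraticAlgebra.re_mul, QuadraticAlgebra.re_intCast, Int.cast_id]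
      rw [hn]
      ring
    · simp only [QuadraticAlgebra.im_mul, QuadraticAlgebra.im_intCast]
      ring
  refine LinearMap.ext fun x => Subtype.ext ?_
  change (⟨-τ, 2⟩ : Oq τ ν) • (⟨-τ, 2⟩ : Oq τ ν) • (x : Fin g → Oq τ ν) =
    (τ ^ 2 - 4 * ν) • (x : Fin g → Oq τ ν)
  rw [smul_smul, hc _ rfl, Int.cast_smul_eq_zsmul]

/-- The rank is even. -/
private theorem BACKA_even (hD : τ ^ 2 < 4 * ν) (L : Submodule (Oq τ ν) (Fin g → Oq τ ν))
    {d : ℕ} (b : Module.Basis (Fin d) ℤ (L.restrictScalars ℤ)) : Even d := by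
  have : Module.Free ℤ (L.restrictScalars ℤ) := Module.Free.of_basis b
  have : Module.Finite ℤ (L.restrictScalars ℤ) := Module.Finite.of_basis b
  have h1 : LinearMap.det (BACKA_e L) * LinearMap.det (BACKA_e L) = (τ ^ 2 - 4 * ν) ^ d := by
    rw [← map_mul, BACKA_sq, LinearMap.det_smul, map_one, mul_one,
      Module.finrank_eq_card_basis b, Fintype.card_fin]
  by_contra hd
  rw [Nat.not_even_iff_odd] at hd
  have h2 : (τ ^ 2 - 4 * ν) ^ d < 0 := hd.pow_neg (by omega)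
  have h3 := mul_self_nonneg (LinearMap.det (BACKA_e L))
  omega

/-- Every submodule has a `ℤ`-basis with an even number of elements. PROOF. `L` is a finitely
generated torsion free `ℤ`-module, so free of finite rank `d`; multiplication by `2 ω - τ` is an
endomorphism `e` of it with `e ^ 2 = (τ ^ 2 - 4 ν) • 1`, so `det e ^ 2 = (τ ^ 2 - 4 ν) ^ d ≥ 0` and
`d` is even. -/
theorem exists_zbasis (hD : τ ^ 2 < 4 * ν) (L : Submodule (Oq τ ν) (Fin g → Oq τ ν)) :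
    ∃ (r : ℕ) (v : Fin (2 * r) → Fin g → Oq τ ν), IsZBasis L v := by
  have : Module.Finite ℤ (Oq τ ν) := Module.Finite.of_basis (QuadraticAlgebra.basis _ _)
  have : Module.Free ℤ (Oq τ ν) := Module.Free.of_basis (QuadraticAlgebra.basis _ _)
  obtain ⟨d, b⟩ := Submodule.basisOfPid (Module.Free.chooseBasis ℤ (Fin g → Oq τ ν))
    (L.restrictScalars ℤ)
  obtain ⟨r, hr⟩ := BACKA_even hD L b
  have hr2 : d = 2 * r := by omega
  subst hr2
  refine ⟨r, fun i => (b i : Fin g → Oq τ ν), ?_, ?_⟩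
  · exact b.linearIndependent.map' (L.restrictScalars ℤ).subtype (Submodule.ker_subtype _)
  · have h1 : Set.range (fun i => (b i : Fin g → Oq τ ν)) =
        (L.restrictScalars ℤ).subtype '' Set.range b := by
      rw [← Set.range_comp]
      rfl
    rw [h1, Submodule.span_image, b.span_eq, Submodule.map_top, Submodule.range_subtype]

end LangCM
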