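import Pool.Agent.Lib_MP_f5471b_cm.BackA
import Pool.Agent.Lib_MP_f5471b_nt.Deg

/-!
# Piece BACKB: degrees
-/

set_option autoImplicit false

namespace LangCM

open Matrix LangForms

variable {τ ν : ℤ} {g : ℕ}

/-- `th` as a linear equivalence. -/
noncomputable def thE (τ ν : ℤ) (g : ℕ) : (Fin (g * 2) → ℤ) ≃ₗ[ℤ] (Fin g → Oq τ ν) :=
  LinearEquiv.ofBijective
    { toFun := th τ ν
      map_add' := th_add
      map_smul' := th_smul } th_bij

theorem thE_apply (v : Fin (g * 2) → ℤ) : thE τ ν g v = th τ ν v := rfl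

/-- The Gram determinant of a `ℤ`-basis of `L` for the trace form. PROOF. The vectors `th⁻¹ (v i)` form
a basis of `Λ`, their Gram matrix for `MM M` is `trGram M v` (`MM_form`), and `gdet` does not depend
on the basis (`LangForms.DegAux.gdet_eq` in `Lib_MP_f5471b_nt/Deg.lean`); `Module.finrank ℤ Λ = 2 * r`. -/
theorem gdet_eq_trGram (hD : τ ^ 2 < 4 * ν) (M : Matrix (Fin g) (Fin g) (Oq τ ν))
    (Λ : Submodule ℤ (Fin (g * 2) → ℤ)) (L : Submodule (Oq τ ν) (Fin g → Oq τ ν))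
    (hL : ∀ v, th τ ν v ∈ L ↔ v ∈ Λ) (r : ℕ) (v : Fin (2 * r) → Fin g → Oq τ ν)
    (hv : IsZBasis L v) :
    gdet (MM M) Λ = (trGram M v).det ∧ Module.finrank ℤ Λ = 2 * r := by
  have hw : IsLatBasis Λ (fun i => (thE τ ν g).symm (v i)) := by
    refine ⟨hv.1.map' (thE τ ν g).symm.toLinearMap (LinearEquiv.ker _), ?_⟩
    have h1 : Set.range (fun i => (thE τ ν g).symm (v i)) =
        (thE τ ν g).symm.toLinearMap '' Set.range v := by
      rw [← Set.range_comp]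
      rfl
    rw [h1, ← Submodule.map_span, hv.2]
    ext x
    rw [Submodule.mem_map]
    constructor
    · rintro ⟨y, hy, rfl⟩
      have h2 : y ∈ L := hy
      rw [← hL]
      have h3 : th τ ν ((thE τ ν g).symm y) = y := (thE τ ν g).apply_symm_apply y
      change th τ ν ((thE τ ν g).symm y) ∈ L
      rw [h3]
      exact h2
    · intro hx
      refine ⟨thE τ ν g x, ?_, (thE τ ν g).symm_apply_apply x⟩
      exact (hL x).2 hx
  constructor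
  · rw [DegAux.gdet_eq (MM M) (Module.finBasis ℤ Λ), ← DegAux.det_of_isLatBasis (MM M) _ hw]
    congr 1
    ext i j
    rw [Matrix.of_apply, MM_form]
    have h3 : ∀ y, th τ ν ((thE τ ν g).symm y) = y := fun y => (thE τ ν g).apply_symm_apply y
    rw [h3, h3]
    rfl
  · have h1 := finrank_span_eq_card hw.1
    rw [hw.2, Fintype.card_fin] at h1
    exact h1

/-- Comparison of degrees. PROOF. Let `D = 4 ν - τ ^ 2 ≥ 1` and take the bases of `exists_zbasis`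
for `L` (`r ≤ g`) and for `⊤` (then `r = g`). By `gdet_eq_trGram`,
`dB = r! (gdet Λ / D ^ r) ^ (1/2) ≤ g! (gdet Λ) ^ (1/2)`,
`dA = g! (gdet ⊤ / D ^ g) ^ (1/2)`, and `gdet Λ ≤ degB Λ ≤ C degB ⊤ = C (2 g)! gdet ⊤`. All `gdet` are
positive (`LangForms.DegAux.gdet_pos`). -/
theorem deg_compare (hD : τ ^ 2 < 4 * ν) (M : Matrix (Fin g) (Fin g) (Oq τ ν)) (hM : IsPolO M)
    (Λ : Submodule ℤ (Fin (g * 2) → ℤ)) (L : Submodule (Oq τ ν) (Fin g → Oq τ ν))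
    (hL : ∀ v, th τ ν v ∈ L ↔ v ∈ Λ) (C : ℝ) (hC : 0 ≤ C)
    (h : (degB (MM M) Λ : ℝ) ≤ C * degB (MM M) ⊤) :
    ∃ dB dA : ℝ, IsDeg M L dB ∧ IsDeg M ⊤ dA ∧
      dB ≤ Real.sqrt (C * (g * 2).factorial * (4 * ν - τ ^ 2 : ℤ) ^ g) * dA := by
  obtain ⟨r, v, hv⟩ := exists_zbasis hD L
  obtain ⟨r', v', hv'⟩ := exists_zbasis hD (⊤ : Submodule (Oq τ ν) (Fin g → Oq τ ν))
  obtain ⟨h1, h2⟩ := gdet_eq_trGram hD M Λ L hL r v hv
  obtain ⟨h1', h2'⟩ := gdet_eq_trGram hD M ⊤ ⊤ (fun _ => by simp) r' v' hv'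
  have hfin : Module.finrank ℤ (⊤ : Submodule ℤ (Fin (g * 2) → ℤ)) = g * 2 := by
    rw [finrank_top, Module.finrank_fin_fun]
  have hr' : r' = g := by omega
  subst hr'
  have hle : Module.finrank ℤ Λ ≤ Module.finrank ℤ (⊤ : Submodule ℤ (Fin (r' * 2) → ℤ)) :=
    Submodule.finrank_mono le_top
  have hr : r ≤ r' := by omega
  have hpol := MM_isPol hD M hM
  have hp : 0 < gdet (MM M) Λ := DegAux.gdet_pos _ hpol Λ
  have hp' : 0 < gdet (MM M) ⊤ := DegAux.gdet_pos _ hpol ⊤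
  refine ⟨_, _, ⟨r, v, hv, rfl⟩, ⟨r', v', hv', rfl⟩, ?_⟩
  rw [← h1, ← h1']
  obtain ⟨D, hDd⟩ : ∃ D : ℤ, D = 4 * ν - τ ^ 2 := ⟨_, rfl⟩
  rw [← hDd]
  have hD1 : (1 : ℝ) ≤ (D : ℝ) := by
    have : (1 : ℤ) ≤ D := by omega
    exact_mod_cast this
  have hpR : (0 : ℝ) < (gdet (MM M) Λ : ℝ) := by exact_mod_cast hp
  have hpR' : (0 : ℝ) < (gdet (MM M) ⊤ : ℝ) := by exact_mod_cast hp'
  unfold degB at h
  rw [hfin] at h
  push_cast at h
  have hf1 : (1 : ℝ) ≤ ((Module.finrank ℤ Λ).factorial : ℝ) := by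
    exact_mod_cast Nat.one_le_iff_ne_zero.2 (Nat.factorial_ne_zero _)
  have h3 : (gdet (MM M) Λ : ℝ) ≤ C * ((r' * 2).factorial * gdet (MM M) ⊤) := by
    refine le_trans ?_ h
    exact le_mul_of_one_le_left hpR.le hf1
  have hDr : (1 : ℝ) ≤ (D : ℝ) ^ r := one_le_pow₀ hD1
  have hDg : (0 : ℝ) < (D : ℝ) ^ r' := by positivity
  have h4 : (gdet (MM M) Λ : ℝ) / (D : ℝ) ^ r ≤
      (C * (r' * 2).factorial * (D : ℝ) ^ r') * ((gdet (MM M) ⊤ : ℝ) / (D : ℝ) ^ r') := by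
    have h5 : (C * (r' * 2).factorial * (D : ℝ) ^ r') * ((gdet (MM M) ⊤ : ℝ) / (D : ℝ) ^ r') =
        C * ((r' * 2).factorial * gdet (MM M) ⊤) := by
      field_simp
    rw [h5]
    exact (div_le_self hpR.le hDr).trans h3
  have h6 : Real.sqrt ((gdet (MM M) Λ : ℝ) / (D : ℝ) ^ r) ≤
      Real.sqrt (C * (r' * 2).factorial * (D : ℝ) ^ r') *
        Real.sqrt ((gdet (MM M) ⊤ : ℝ) / (D : ℝ) ^ r') := by
    rw [← Real.sqrt_mul (by positivity)]
    exact Real.sqrt_le_sqrt h4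
  have h7 : (r.factorial : ℝ) ≤ (r'.factorial : ℝ) := by exact_mod_cast Nat.factorial_le hr
  calc (r.factorial : ℝ) * Real.sqrt ((gdet (MM M) Λ : ℝ) / (D : ℝ) ^ r)
      ≤ (r'.factorial : ℝ) * (Real.sqrt (C * (r' * 2).factorial * (D : ℝ) ^ r') *
        Real.sqrt ((gdet (MM M) ⊤ : ℝ) / (D : ℝ) ^ r')) :=
        mul_le_mul h7 h6 (Real.sqrt_nonneg _) (Nat.cast_nonneg _)
    _ = _ := by ring

end LangCM
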