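import Pool.Agent.Lib_MP_f5471b_nt.Defs

/-!
# MP_f5471b_nt, complex multiplication: the abstract situation

`J` is the matrix of `ω` (`ω ^ 2 = τ ω - ν`) on the characters, acting on rows.
-/

set_option autoImplicit false

namespace LangCM

open LangForms

/-- Multiplication by `ω` in a form of an abelian variety with the characters `ℤ ^ n`. -/
structure JData {G : Type} [Group G] {n : ℕ} (ρ : G →* Matrix.GeneralLinearGroup (Fin n) ℤ)
    (M J : Matrix (Fin n) (Fin n) ℤ) (τ ν : ℤ) : Prop where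
  sq : J * J = τ • J - ν • 1
  sim : J.transpose * M * J = ν • M
  comm : ∀ σ, (ρ σ).val * J = J * (ρ σ).val ∨ (ρ σ).val * J = (τ • 1 - J) * (ρ σ).val

/-- Alternative (a) with a `J`-stable lattice. -/
def ObstructedJ {G : Type} [Group G] {X : Type} [AddCommGroup X] {n : ℕ}
    (ρ : G →* Matrix.GeneralLinearGroup (Fin n) ℤ) (M J : Matrix (Fin n) (Fin n) ℤ)
    (P : Fin n → X) (c : ℝ) : Prop :=
  ∃ Λ : Submodule ℤ (Fin n → ℤ), Λ ≠ ⊤ ∧ Saturated Λ ∧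
    (∀ σ, ∀ v ∈ Λ, (ρ σ).val.mulVec v ∈ Λ) ∧ (∀ v ∈ Λ, J.mulVec v ∈ Λ) ∧
    (degB M Λ : ℝ) ≤ c * degB M ⊤ ∧
    ∃ m : ℕ, 1 ≤ m ∧ (m : ℝ) ≤ c ∧ m • P ∈ subPts (X := X) Λ

end LangCM
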