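import Pool.Agent.Lib_MP_f5471b_cm.IntP
import Pool.Agent.Lib_MP_f5471b_cm.JDefs

/-!
# MP_f5471b_nt, complex multiplication: points modulo an abelian subvariety
-/

set_option autoImplicit false

namespace LangCM

open Matrix LangForms Height NumberField WeierstrassCurve

variable {τ ν : ℤ} {g : ℕ} {K F : Type} [Field K] [Field F] [DecidableEq F] [Algebra K F]
  {W : WeierstrassCurve K}

/-- The action of `α` on the points of `W ^ g`. -/
def actV (cm : CMAct τ ν W F) (α : Oq τ ν) :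
    (Fin g → (W.baseChange F).toAffine.Point) →+ (Fin g → (W.baseChange F).toAffine.Point) where
  toFun P := fun a => cm.act α (P a)
  map_zero' := by ext a; simp
  map_add' P Q := by ext a; simp

theorem actV_apply (cm : CMAct τ ν W F) (α : Oq τ ν)
    (P : Fin g → (W.baseChange F).toAffine.Point) (a : Fin g) :
    actV cm α P a = cm.act α (P a) := rfl

theorem act_mul (cm : CMAct τ ν W F) (α β : Oq τ ν) (Q : (W.baseChange F).toAffine.Point) :
    cm.act α (cm.act β Q) = cm.act (α * β) Q := by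
  rw [map_mul]; rfl

theorem act_add (cm : CMAct τ ν W F) (α β : Oq τ ν) (Q : (W.baseChange F).toAffine.Point) :
    cm.act (α + β) Q = cm.act α Q + cm.act β Q := by
  rw [map_add]; rfl

theorem act_int (cm : CMAct τ ν W F) (n : ℤ) (Q : (W.baseChange F).toAffine.Point) :
    cm.act (n : Oq τ ν) Q = n • Q := by
  rw [map_intCast]; rfl

theorem act_zsmul (cm : CMAct τ ν W F) (n : ℤ) (α : Oq τ ν)
    (Q : (W.baseChange F).toAffine.Point) : cm.act (n • α) Q = n • cm.act α Q := by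
  rw [map_zsmul]; rfl

theorem actV_mem (cm : CMAct τ ν W F) (L : Submodule (Oq τ ν) (Fin g → Oq τ ν)) (α : Oq τ ν)
    (P : Fin g → (W.baseChange F).toAffine.Point) (hP : P ∈ subPtsO cm L) :
    actV cm α P ∈ subPtsO cm L := by
  have h : subPtsO cm L ≤ (subPtsO cm L).comap (actV cm α) := by
    rw [subPtsO, AddSubgroup.closure_le]
    rintro _ ⟨v, hv, Q, rfl⟩
    show actV cm α _ ∈ subPtsO cm L
    apply AddSubgroup.subset_closure
    refine ⟨α • v, L.smul_mem α hv, Q, ?_⟩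
    funext a
    rw [actV_apply, act_mul]
    rfl
  exact h hP

/-- The map `(x_{a,i}) ↦ ∑_i [β_i] x_{a,i}`. -/
def piV (cm : CMAct τ ν W F) (g : ℕ) :
    (Fin (g * 2) → (W.baseChange F).toAffine.Point) →+
      (Fin g → (W.baseChange F).toAffine.Point) where
  toFun x := fun a => ∑ i, cm.act (be τ ν i) (x ((pr g).symm (a, i)))
  map_zero' := by ext a; simp
  map_add' P Q := by ext a; simp [Finset.sum_add_distrib]

theorem piV_apply (cm : CMAct τ ν W F) (x : Fin (g * 2) → (W.baseChange F).toAffine.Point)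
    (a : Fin g) : piV cm g x a = ∑ i, cm.act (be τ ν i) (x ((pr g).symm (a, i))) := rfl

theorem piV_mem (cm : CMAct τ ν W F) (Λ : Submodule ℤ (Fin (g * 2) → ℤ))
    (L : Submodule (Oq τ ν) (Fin g → Oq τ ν)) (hL : ∀ v, th τ ν v ∈ L ↔ v ∈ Λ)
    (x : Fin (g * 2) → (W.baseChange F).toAffine.Point) (hx : x ∈ subPts Λ) :
    piV cm g x ∈ subPtsO cm L := by
  have h : subPts Λ ≤ (subPtsO cm L).comap (piV cm g) := by
    rw [subPts, AddSubgroup.closure_le]
    rintro _ ⟨v, hv, Q, rfl⟩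
    show piV cm g _ ∈ subPtsO cm L
    apply AddSubgroup.subset_closure
    refine ⟨th τ ν v, (hL v).2 hv, Q, ?_⟩
    funext a
    rw [piV_apply, th, Fin.sum_univ_two, Fin.sum_univ_two, act_add, act_zsmul, act_zsmul, map_zsmul,
      map_zsmul]
  exact h hx

theorem piV_PP (cm : CMAct τ ν W F) (P : Fin g → (W.baseChange F).toAffine.Point) :
    piV cm g (PP cm P) = actV cm ⟨-τ, 2⟩ P := by
  funext a
  rw [piV_apply, actV_apply, Fin.sum_univ_two]
  simp only [PP, Equiv.apply_symm_apply, act_mul, ← act_add]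
  congr 2
  simp only [be, al, Matrix.cons_val_zero, Matrix.cons_val_one]
  ext <;> simp

theorem back_points (hD : τ ^ 2 < 4 * ν) (cm : CMAct τ ν W F)
    (Λ : Submodule ℤ (Fin (g * 2) → ℤ)) (L : Submodule (Oq τ ν) (Fin g → Oq τ ν))
    (hL : ∀ v, th τ ν v ∈ L ↔ v ∈ Λ) (P : Fin g → (W.baseChange F).toAffine.Point) (m : ℕ)
    (h : m • PP cm P ∈ subPts Λ) :
    (m * (4 * ν - τ ^ 2).toNat) • P ∈ subPtsO cm L := by
  have h1 := actV_mem cm L ⟨-τ, 2⟩ _ (piV_mem cm Λ L hL _ h)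
  rw [map_nsmul, piV_PP, map_nsmul] at h1
  have h2 : actV cm ⟨-τ, 2⟩ (actV cm ⟨-τ, 2⟩ P) = -((4 * ν - τ ^ 2).toNat • P) := by
    funext a
    rw [actV_apply, actV_apply, act_mul]
    obtain ⟨n, hn⟩ : ∃ n : ℤ, n = τ ^ 2 - 4 * ν := ⟨_, rfl⟩
    have e : (⟨-τ, 2⟩ : Oq τ ν) * ⟨-τ, 2⟩ = (n : Oq τ ν) := by
      rw [QuadraticAlgebra.mk_mul_mk]
      ext
      · rw [QuadraticAlgebra.re_intCast, Int.cast_id, hn]
        ring
      · rw [QuadraticAlgebra.im_intCast]
        ring
    rw [e, act_int]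
    simp only [Pi.neg_apply, Pi.smul_apply]
    rw [← natCast_zsmul, ← neg_smul]
    congr 1
    omega
  rw [h2, smul_neg, neg_mem_iff] at h1
  rw [mul_smul]
  exact h1

end LangCM
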