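import Pool.Agent.Lib_MP_f5471b_nt.Pig

/-!
# MP_f5471b_nt, complex multiplication: pigeonhole with a factor
-/

set_option autoImplicit false

namespace LangCM

open LangForms Finset

theorem pig_box_k (D k : ℕ) (hk : 1 ≤ k) (c : Fin D → ℚ) :
    ∃ m : ℕ, 1 ≤ m ∧ m ≤ (2 * (D * k)) ^ (D * k) ∧ ∃ n : Fin D → ℤ,
      ∀ i, |(m : ℚ) * c i - n i| ≤ 1 / (2 * (D * k)) := by
  obtain ⟨m, h1, h2, n, hn⟩ := pig_box (D * k) fun j => c (finProdFinEquiv.symm j).1
  refine ⟨m, h1, h2, fun i => n (finProdFinEquiv (i, ⟨0, hk⟩)), fun i => ?_⟩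
  have h := hn (finProdFinEquiv (i, ⟨0, hk⟩))
  simp only [Equiv.symm_apply_apply] at h
  push_cast at h
  exact h

theorem pigeonK (D k : ℕ) (hk : 1 ≤ k) : ∃ B : ℕ, 1 ≤ B ∧
    ∀ (g : ℕ) (M : Matrix (Fin g) (Fin g) ℤ), IsPol M →
    ∀ (U : Submodule ℤ (Fin g → ℤ)), Saturated U → ∀ (s : ℝ), 0 < s →
    ∀ (f : Fin D → Fin g → ℤ), (∀ i, f i ∈ U) → (∀ i, Sh M ((k : ℝ) ^ 2 * s) (f i)) →
      (∀ ℓ' ∈ U, Sh M (s / 4) ℓ' → ℓ' = 0) →
      ∀ ψ : Fin g → ℤ, (∀ v : Fin g → ℤ, (∀ i, f i ⬝ᵥ v = 0) → ψ ⬝ᵥ v = 0) →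
        ∃ m : ℕ, 1 ≤ m ∧ m ≤ B ∧ (m : ℤ) • ψ ∈ Submodule.span ℤ (Set.range f) := by
  refine ⟨(2 * (D * k)) ^ (D * k), ?_, ?_⟩
  · rcases Nat.eq_zero_or_pos D with rfl | h
    · simp
    · exact Nat.one_le_pow _ _ (by have := Nat.mul_pos h hk; omega)
  intro g M _ U hU s _ f hfU hfS hmin ψ hψ
  obtain ⟨c, hc⟩ := pig_rat_comb f ψ hψ
  obtain ⟨m, hm1, hm2, n, hn⟩ := pig_box_k D k hk c
  refine ⟨m, hm1, hm2, ?_⟩
  -- `ψ ∈ U`
  have hψU : ψ ∈ U := by
    obtain ⟨N, w, hN, hw⟩ := pig_common_den c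
    apply hU N ψ hN
    have : N • ψ = ∑ i, w i • f i := by
      funext a
      have h1 : ((N * ψ a : ℤ) : ℚ) = ((∑ i, w i * f i a : ℤ) : ℚ) := by
        push_cast
        rw [hc a, Finset.mul_sum]
        refine Finset.sum_congr rfl fun i _ => ?_
        rw [← hw i]; ring
      have h2 : N * ψ a = ∑ i, w i * f i a := by exact_mod_cast h1
      simpa [Finset.sum_apply] using h2
    rw [this]
    exact Submodule.sum_mem _ fun i _ => U.smul_mem _ (hfU i)
  have hz : (m : ℤ) • ψ - ∑ i, n i • f i = 0 := by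
    rcases Nat.eq_zero_or_pos D with hD0 | hD
    · subst hD0
      have : ψ = 0 := by
        funext a
        have := hc a
        simp only [Finset.univ_eq_empty, Finset.sum_empty] at this
        exact_mod_cast this
      simp [this]
    apply hmin
    · exact U.sub_mem (U.smul_mem _ hψU) (Submodule.sum_mem _ fun i _ => U.smul_mem _ (hfU i))
    · intro v
      set Q : ℝ := ∑ a, ∑ b, v a * M a b * v b with hQ
      have hDR : (0 : ℝ) < D := by exact_mod_cast hD
      have hkR : (0 : ℝ) < k := by exact_mod_cast hk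
      set x : Fin D → ℝ := fun i => ∑ a, (f i a : ℝ) * v a with hx
      set ε : Fin D → ℝ := fun i => (((m : ℚ) * c i - n i : ℚ) : ℝ) with hε
      have hεb : ∀ i, ε i ^ 2 ≤ 1 / (4 * (D * k) ^ 2) := by
        intro i
        have h1 : |ε i| ≤ 1 / (2 * (D * k)) := by
          have h := hn i
          have h' : ((|(m : ℚ) * c i - n i| : ℚ) : ℝ) ≤ ((1 / (2 * (D * k)) : ℚ) : ℝ) := by
            exact_mod_cast h
          rw [Rat.cast_abs] at h'
          push_cast at h'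
          simpa [hε] using h'
        have h2 : ε i ^ 2 = |ε i| ^ 2 := (sq_abs _).symm
        rw [h2]
        calc |ε i| ^ 2 ≤ (1 / (2 * ((D : ℝ) * k))) ^ 2 := by gcongr
          _ = 1 / (4 * ((D : ℝ) * k) ^ 2) := by rw [div_pow, mul_pow]; norm_num
      have hxb : ∀ i, x i ^ 2 ≤ (k : ℝ) ^ 2 * s * Q := fun i => hfS i v
      have hsum : (∑ a, ((((m : ℤ) • ψ - ∑ i, n i • f i) a : ℤ) : ℝ) * v a) = ∑ i, ε i * x i := by
        have h1 : ∀ a, ((((m : ℤ) • ψ - ∑ i, n i • f i) a : ℤ) : ℝ) = ∑ i, ε i * f i a := by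
          intro a
          have h2 : ((((m : ℤ) • ψ - ∑ i, n i • f i) a : ℤ) : ℚ) =
              ∑ i, ((m : ℚ) * c i - n i) * f i a := by
            simp only [Pi.sub_apply, Pi.smul_apply, Finset.sum_apply, smul_eq_mul, Int.cast_sub,
              Int.cast_mul, Int.cast_natCast, Int.cast_sum]
            rw [hc a, Finset.mul_sum, ← Finset.sum_sub_distrib]
            refine Finset.sum_congr rfl fun i _ => ?_
            ring
          have h3 := congrArg (fun q : ℚ => (q : ℝ)) h2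
          simp only [Rat.cast_intCast, Rat.cast_sum, Rat.cast_mul] at h3
          exact h3
        simp_rw [h1, Finset.sum_mul]
        rw [Finset.sum_comm]
        refine Finset.sum_congr rfl fun i _ => ?_
        rw [hx, Finset.mul_sum]
        refine Finset.sum_congr rfl fun a _ => ?_
        ring
      rw [hsum]
      have hsQ : 0 ≤ (k : ℝ) ^ 2 * s * Q := le_trans (sq_nonneg _) (hxb ⟨0, hD⟩)
      calc (∑ i, ε i * x i) ^ 2 ≤ (∑ i, ε i ^ 2) * ∑ i, x i ^ 2 :=
            Finset.sum_mul_sq_le_sq_mul_sq _ _ _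
        _ ≤ (∑ _i : Fin D, 1 / (4 * ((D : ℝ) * k) ^ 2)) * ∑ _i : Fin D, (k : ℝ) ^ 2 * s * Q := by
            gcongr with i _ i _
            · exact hεb i
            · exact hxb i
        _ = s / 4 * Q := by
            rw [Finset.sum_const, Finset.sum_const, Finset.card_univ, Fintype.card_fin]
            simp only [nsmul_eq_mul]
            field_simp
  rw [sub_eq_zero.mp hz]
  exact Submodule.sum_mem _ fun i _ =>
    Submodule.smul_mem _ _ (Submodule.subset_span ⟨i, rfl⟩)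

end LangCM
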