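import Pool.Agent.Lib_MP_f5471b_nt.ShLem
import Pool.Agent.Lib_MP_f5471b_nt.PhiAct
import Pool.Agent.Lib_MP_f5471b_nt.Deg
import Pool.Agent.Lib_MP_f5471b_nt.SubPts
import Pool.Agent.Lib_MP_f5471b_cm.JDefs
import Pool.Agent.Lib_MP_f5471b_cm.PigK

/-!
# MP_f5471b_nt, complex multiplication: the core lemma with a `J`-stable lattice
-/

set_option autoImplicit false

namespace LangCM

open LangForms Matrix

/-- `ω` multiplies the dual norm by `ν`. -/
theorem Sh_J {n : ℕ} {G : Type} [Group G] {ρ : G →* Matrix.GeneralLinearGroup (Fin n) ℤ}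
    {M J : Matrix (Fin n) (Fin n) ℤ} {τ ν : ℤ} (hJ : JData ρ M J τ ν) (s : ℝ) (ℓ : Fin n → ℤ)
    (h : Sh M s ℓ) : Sh M (ν * s) (ℓ ᵥ* J) := by
  intro v
  have h1 := h (fun a => ∑ c, (J a c : ℝ) * v c)
  have h2 : ∑ a, ∑ b, (∑ c, (J a c : ℝ) * v c) * M a b * (∑ c, (J b c : ℝ) * v c) =
      ν * ∑ a, ∑ b, v a * M a b * v b := by
    have e1 : (J.map (Int.cast : ℤ → ℝ)).transpose * (M.map (Int.cast : ℤ → ℝ)) *
        (J.map (Int.cast : ℤ → ℝ)) = (ν : ℝ) • M.map (Int.cast : ℤ → ℝ) := by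
      have := congrArg (fun A : Matrix (Fin n) (Fin n) ℤ => A.map (Int.castRingHom ℝ)) hJ.sim
      simp only [Matrix.map_mul] at this
      refine Eq.trans this ?_
      ext i j
      simp only [Matrix.map_apply, Matrix.smul_apply, smul_eq_mul, Int.coe_castRingHom,
        Int.cast_mul]
    have e2 : ∀ w : Fin n → ℝ, ∑ a, ∑ b, w a * M a b * w b =
        w ⬝ᵥ (M.map (Int.cast : ℤ → ℝ)).mulVec w := by
      intro w
      simp only [dotProduct, Matrix.mulVec, Matrix.map_apply, Finset.mul_sum, mul_assoc]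
    have e3 := e2 (fun a => ∑ c, (J a c : ℝ) * v c)
    have e4 : (fun a => ∑ c, (J a c : ℝ) * v c) = (J.map (Int.cast : ℤ → ℝ)).mulVec v := by
      ext a; simp [Matrix.mulVec, dotProduct]
    rw [e3, e2 v, e4]
    have e5 : (ν : ℝ) * (v ⬝ᵥ (M.map (Int.cast : ℤ → ℝ)).mulVec v) =
        v ⬝ᵥ ((ν : ℝ) • M.map (Int.cast : ℤ → ℝ)).mulVec v := by
      rw [Matrix.smul_mulVec, dotProduct_smul, smul_eq_mul]
    rw [e5, ← e1, ← Matrix.mulVec_mulVec, ← Matrix.mulVec_mulVec, Matrix.dotProduct_mulVec v,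
      Matrix.vecMul_transpose]
  rw [h2] at h1
  refine le_trans (le_of_eq ?_) (h1.trans (le_of_eq (by ring)))
  congr 1
  simp only [Matrix.vecMul, dotProduct, Finset.mul_sum]
  push_cast
  simp only [Finset.sum_mul]
  rw [Finset.sum_comm]
  refine Finset.sum_congr rfl fun a _ => Finset.sum_congr rfl fun b _ => ?_
  ring

theorem Phi_J {n : ℕ} {X : Type} [AddCommGroup X] (J : Matrix (Fin n) (Fin n) ℤ)
    (om : X →+ X) (P : Fin n → X) (hP : ∀ a, ∑ b, J a b • P b = om (P a)) (ℓ : Fin n → ℤ) :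
    Phi P (ℓ ᵥ* J) = om (Phi P ℓ) := by
  simp only [Phi, map_sum, map_zsmul, ← hP, Matrix.vecMul, dotProduct, Finset.smul_sum,
    Finset.sum_smul, mul_smul]
  exact Finset.sum_comm

theorem coreJ (g D : ℕ) (τ ν : ℤ) (hν : 1 ≤ ν) (C₀ : ℝ) : ∃ C : ℝ, 0 < C ∧
    ∀ (G : Type) [Group G] [Finite G],
    Nat.card G ≤ D → ∀ (X : Type) [AddCommGroup X] (act : G → X →+ X)
    (ρ : G →* Matrix.GeneralLinearGroup (Fin g) ℤ)
    (M : Matrix (Fin g) (Fin g) ℤ), IsPol M →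
    (∀ σ, (ρ σ).val.transpose * M * (ρ σ).val = M) →
    ∀ (J : Matrix (Fin g) (Fin g) ℤ), JData ρ M J τ ν →
    ∀ (om : X →+ X) (P : Fin g → X), (∀ a, ∑ b, J a b • P b = om (P a)) →
    (∀ σ a, ∑ b, (ρ σ).val a b • act σ (P b) = P a) →
    ∀ (U : Submodule ℤ (Fin g → ℤ)), Saturated U → (∀ σ, ∀ ℓ ∈ U, actL ρ σ ℓ ∈ U) →
    (∀ ℓ ∈ U, ℓ ᵥ* J ∈ U) →
    (∃ ℓ ∈ U, ℓ ≠ 0 ∧ Sh M C₀ ℓ) →
    ∃ ℓ ∈ U, ℓ ≠ 0 ∧ Sh M C₀ ℓ ∧ ∀ t : ℕ, 1 ≤ t → t • Phi P ℓ = 0 →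
      ObstructedJ ρ M J P (C * t) := by
  classical
  obtain ⟨k, hk⟩ : ∃ k : ℕ, k = ν.toNat := ⟨_, rfl⟩
  have hk1 : 1 ≤ k := by omega
  have hkν : (ν : ℝ) ≤ (k : ℝ) ^ 2 := by
    have h1 : ν = (k : ℤ) := by omega
    have h2 : (1 : ℝ) ≤ k := by exact_mod_cast hk1
    rw [h1]
    push_cast
    nlinarith
  have hν0 : (0 : ℝ) < ν := by exact_mod_cast hν
  have hk2 : (1 : ℝ) ≤ (k : ℝ) ^ 2 := by
    have h2 : (1 : ℝ) ≤ k := by exact_mod_cast hk1
    nlinarith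
  obtain ⟨C₁, hC₁, hdeg⟩ := deg_bound g (D * 2) ((k : ℝ) ^ 2 * C₀)
  obtain ⟨B, hB1, hpig⟩ := pigeonK (D * 2) k hk1
  refine ⟨max C₁ (B.factorial : ℕ), lt_of_lt_of_le hC₁ (le_max_left _ _), ?_⟩
  intro G _ _ hG X _ act ρ M hM hinv J hJ om P hom hP U hUs hUG hUJ h0
  obtain ⟨s, hs, hsC, ℓ, hℓU, hℓ0, hℓ, hmin⟩ := exists_min_short M hM U C₀ h0
  refine ⟨ℓ, hℓU, hℓ0, Sh_mono M hM hsC ℓ hℓ, ?_⟩
  intro t ht h0t
  -- enumerate the group
  obtain ⟨e, he⟩ : ∃ e : Fin D → G, Function.Surjective e := by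
    have hpos : 0 < Nat.card G := Nat.card_pos
    let e0 := (Finite.equivFin G).symm
    refine ⟨fun i => if h : (i : ℕ) < Nat.card G then e0 ⟨i, h⟩ else 1, ?_⟩
    intro x
    refine ⟨⟨e0.symm x, lt_of_lt_of_le (e0.symm x).2 hG⟩, ?_⟩
    simp
  obtain ⟨f, hf⟩ : ∃ f : Fin (D * 2) → Fin g → ℤ, ∀ i j, f (finProdFinEquiv (i, j)) =
      if j = 0 then actL ρ (e i) ℓ else actL ρ (e i) ℓ ᵥ* J := by
    refine ⟨fun k => if (finProdFinEquiv.symm k).2 = 0 then actL ρ (e (finProdFinEquiv.symm k).1) ℓ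
      else actL ρ (e (finProdFinEquiv.symm k).1) ℓ ᵥ* J, fun i j => ?_⟩
    simp only [Equiv.symm_apply_apply]
  have hf0 : ∀ i, f (finProdFinEquiv (i, 0)) = actL ρ (e i) ℓ := fun i => by rw [hf, if_pos rfl]
  have hf1 : ∀ i, f (finProdFinEquiv (i, 1)) = actL ρ (e i) ℓ ᵥ* J := fun i => by
    rw [hf, if_neg (by decide)]
  have hall : ∀ (Q : (Fin g → ℤ) → Prop), (∀ i, Q (actL ρ (e i) ℓ)) →
      (∀ i, Q (actL ρ (e i) ℓ ᵥ* J)) → ∀ k, Q (f k) := by
    intro Q h1 h2 k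
    obtain ⟨⟨i, j⟩, rfl⟩ := finProdFinEquiv.surjective k
    rw [hf]
    split_ifs
    · exact h1 i
    · exact h2 i
  have hfSh : ∀ i, Sh M ((k : ℝ) ^ 2 * s) (f i) := by
    apply hall
    · intro i
      exact Sh_mono M hM (by nlinarith) _ (Sh_act ρ M hinv s ℓ hℓ _)
    · intro i
      exact Sh_mono M hM (by nlinarith) _ (Sh_J hJ s _ (Sh_act ρ M hinv s ℓ hℓ _))
  have hfU : ∀ i, f i ∈ U := by
    apply hall
    · intro i
      exact hUG _ _ hℓU
    · intro i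
      exact hUJ _ (hUG _ _ hℓU)
  let Λ : Submodule ℤ (Fin g → ℤ) :=
    { carrier := {v | ∀ i, f i ⬝ᵥ v = 0}
      add_mem' := by
        intro a b ha hb i
        rw [dotProduct_add, ha, hb, add_zero]
      zero_mem' := by intro i; simp
      smul_mem' := by
        intro c v hv i
        rw [dotProduct_smul, hv, smul_zero] }
  have hΛ : ∀ v, v ∈ Λ ↔ ∀ i, f i ⬝ᵥ v = 0 := fun v => Iff.rfl
  have hΛ2 : ∀ v, v ∈ Λ ↔ ∀ σ, actL ρ σ ℓ ⬝ᵥ v = 0 ∧ (actL ρ σ ℓ ᵥ* J) ⬝ᵥ v = 0 := by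
    intro v
    rw [hΛ]
    constructor
    · intro h σ
      obtain ⟨i, rfl⟩ := he σ
      have h1 := h (finProdFinEquiv (i, 0))
      have h2 := h (finProdFinEquiv (i, 1))
      rw [hf0] at h1
      rw [hf1] at h2
      exact ⟨h1, h2⟩
    · intro h
      exact hall (fun w => w ⬝ᵥ v = 0) (fun i => (h (e i)).1) (fun i => (h (e i)).2)
  have hsat : Saturated Λ := by
    intro n v hn hv i
    have := hv i
    rw [dotProduct_smul, smul_eq_mul] at this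
    exact (mul_eq_zero.1 this).resolve_left hn
  have hΛtop : Λ ≠ ⊤ := by
    intro htop
    apply hℓ0
    ext a
    have h1 : (Pi.single a 1 : Fin g → ℤ) ∈ Λ := by rw [htop]; trivial
    have h2 := ((hΛ2 _).1 h1 1).1
    rw [actL_one] at h2
    simpa using h2
  have hstab : ∀ σ, ∀ v ∈ Λ, (ρ σ).val.mulVec v ∈ Λ := by
    intro σ v hv
    rw [hΛ2] at hv ⊢
    intro τ'
    have h1 := hv (σ⁻¹ * τ')
    have h2 : actL ρ (σ⁻¹ * τ') ℓ = actL ρ τ' ℓ ᵥ* (ρ σ).val := by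
      rw [actL_mul]
      simp [actL]
    rw [h2] at h1
    refine ⟨?_, ?_⟩
    · rw [Matrix.dotProduct_mulVec]
      exact h1.1
    · rw [Matrix.dotProduct_mulVec, Matrix.vecMul_vecMul]
      rcases hJ.comm σ with h3 | h3
      · rw [← h3, ← Matrix.vecMul_vecMul]
        exact h1.2
      · have h4 : J * (ρ σ).val = τ • (ρ σ).val - (ρ σ).val * J := by
          rw [h3]
          simp only [Matrix.sub_mul, Matrix.smul_mul, Matrix.one_mul]
          abel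
        rw [h4, Matrix.vecMul_sub, Matrix.vecMul_smul, ← Matrix.vecMul_vecMul, sub_dotProduct,
          smul_dotProduct, h1.1, h1.2]
        simp
  have hstabJ : ∀ v ∈ Λ, J.mulVec v ∈ Λ := by
    intro v hv
    rw [hΛ2] at hv ⊢
    intro σ
    refine ⟨?_, ?_⟩
    · rw [Matrix.dotProduct_mulVec]
      exact (hv σ).2
    · rw [Matrix.dotProduct_mulVec, Matrix.vecMul_vecMul, hJ.sq, Matrix.vecMul_sub,
        Matrix.vecMul_smul, Matrix.vecMul_smul, Matrix.vecMul_one, sub_dotProduct,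
        smul_dotProduct, smul_dotProduct, (hv σ).1, (hv σ).2]
      simp
  have hC₀ : 0 ≤ C₀ := hs.le.trans hsC
  have hdegΛ := hdeg M hM f (fun i => Sh_mono M hM
    (mul_le_mul_of_nonneg_left hsC (by positivity)) _ (hfSh i)) Λ hΛ
  have hpos : (0 : ℝ) < degB M ⊤ := by exact_mod_cast degB_top_pos M hM
  have ht1 : (1 : ℝ) ≤ t := by exact_mod_cast ht
  have hmaxpos : 0 < max C₁ (B.factorial : ℕ) := lt_of_lt_of_le hC₁ (le_max_left _ _)
  refine ⟨Λ, hΛtop, hsat, hstab, hstabJ, hdegΛ.trans ?_, t * B.factorial, ?_, ?_, ?_⟩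
  · refine mul_le_mul_of_nonneg_right ?_ hpos.le
    calc C₁ ≤ max C₁ (B.factorial : ℕ) := le_max_left _ _
      _ = max C₁ (B.factorial : ℕ) * 1 := (mul_one _).symm
      _ ≤ max C₁ (B.factorial : ℕ) * t := mul_le_mul_of_nonneg_left ht1 hmaxpos.le
  · exact Nat.mul_pos ht (Nat.factorial_pos B)
  · push_cast
    rw [mul_comm]
    exact mul_le_mul_of_nonneg_right (le_max_right _ _) (Nat.cast_nonneg _)
  · refine mem_subPts Λ hsat _ ?_
    intro ψ hψ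
    obtain ⟨m, hm1, hmB, hmem⟩ := hpig g M hM U hUs s hs f hfU hfSh hmin ψ
      (fun v hv => hψ v hv)
    have h0σ : ∀ σ, t • Phi P (actL ρ σ ℓ) = 0 := by
      intro σ
      rw [← Phi_act act ρ P hP, ← map_nsmul, h0t, map_zero]
    -- the values on the span are killed by `t`
    have hspan : ∀ χ ∈ Submodule.span ℤ (Set.range f), t • Phi P χ = 0 := by
      intro χ hχ
      induction hχ using Submodule.span_induction with
      | mem x hx =>
        obtain ⟨i, rfl⟩ := hx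
        refine hall (fun w => t • Phi P w = 0) (fun i => h0σ _) (fun i => ?_) i
        show t • Phi P (actL ρ (e i) ℓ ᵥ* J) = 0
        rw [Phi_J J om P hom, ← map_nsmul, h0σ, map_zero]
      | zero => simp [Phi]
      | add x y _ _ hx hy => rw [Phi_add, smul_add, hx, hy, add_zero]
      | smul c x _ hx => rw [Phi_smul, smul_comm, hx, smul_zero]
    have h3 := hspan _ hmem
    rw [Phi_smul] at h3
    rw [Phi_nsmul]
    obtain ⟨k, hk⟩ : m ∣ B.factorial := Nat.dvd_factorial hm1 hmB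
    have h4 : (t * B.factorial) • Phi P ψ = k • (t • ((m : ℤ) • Phi P ψ)) := by
      rw [hk, natCast_zsmul, ← mul_smul, ← mul_smul]
      congr 1
      ring
    rw [h4, h3, smul_zero]

end LangCM
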