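import Pool.Agent.Lib_MP_f5471b_nt.Defs

/-!
# MP_f5471b_nt: definitions for forms of powers of elliptic curves with complex multiplication

`K` is a number field, `W` an elliptic curve over `K` with complex multiplication by the order
`O = ℤ[ω]`, `ω ^ 2 = τ ω - ν`, of discriminant `τ ^ 2 - 4 ν < 0`, and `F / K` a finite Galois
extension with group `G`, over which the elements of `O` act on `W`. A cocycle `ρ : G → GL_g(O)`
(for the action of `G` on `O ⊆ F`) defines a form `A` of `W ^ g` over `K`, with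
`A(K) = {P ∈ W(F) ^ g | ρ(σ) σ(P) = P for all σ}`.
-/

set_option autoImplicit false

namespace LangCM

open LangForms Height NumberField WeierstrassCurve

/-- The quadratic order `ℤ[ω]` with `ω ^ 2 = τ ω - ν`, of discriminant `τ ^ 2 - 4 ν`. -/
abbrev Oq (τ ν : ℤ) : Type := QuadraticAlgebra ℤ (-ν) τ

/-- `α` if `e` holds, and the conjugate of `α` otherwise. -/
noncomputable def cj {τ ν : ℤ} (e : Prop) (α : Oq τ ν) : Oq τ ν := by
  classical exact if e then α else star α

/-- An action of the order `O = ℤ[ω]` on the elliptic curve `W` by endomorphisms defined over `F`,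
normalised by an embedding `inc` of `O` in `F`: the endomorphism `[α]`, `α ≠ 0`, is given on
`x`-coordinates by a rational function of degree `N(α)` with a pole at infinity, and
`σ [α] σ⁻¹ = [σ(α)]` for all automorphisms `σ` of `F / K`. -/
structure CMAct (τ ν : ℤ) {K : Type} [Field K] (W : WeierstrassCurve K) (F : Type) [Field F]
    [DecidableEq F] [Algebra K F] where
  /-- the embedding of the order in `F` -/
  inc : Oq τ ν →+* F
  /-- the endomorphism `[α]` on the points over `F` -/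
  act : Oq τ ν →+* AddMonoid.End (W.baseChange F).toAffine.Point
  /-- `[α]` is given by a rational function of degree `N(α)` on `x`-coordinates -/
  rat : ∀ α : Oq τ ν, α ≠ 0 → ∃ A B : Polynomial F, IsCoprime A B ∧
    (A.natDegree : ℤ) = α.norm ∧ (B.natDegree : ℤ) < α.norm ∧
    ∀ (x y : F) (h : (W.baseChange F).toAffine.Nonsingular x y),
      (B.eval x = 0 → act α (Affine.Point.some x y h) = 0) ∧
      (B.eval x ≠ 0 → ∃ (y' : F)
        (h' : (W.baseChange F).toAffine.Nonsingular (A.eval x / B.eval x) y'),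
        act α (Affine.Point.some x y h) = Affine.Point.some (A.eval x / B.eval x) y' h')
  /-- `σ [α] σ⁻¹ = [σ(α)]` -/
  gal : ∀ (σ : F ≃ₐ[K] F) (α : Oq τ ν) (Q : (W.baseChange F).toAffine.Point),
    LangForms.gal σ (act α Q) = act (cj (∀ β, σ (inc β) = inc β) α) (LangForms.gal σ Q)

section

variable {τ ν : ℤ} {K : Type} [Field K] {W : WeierstrassCurve K} {F : Type} [Field F]
  [DecidableEq F] [Algebra K F]

/-- The automorphism `σ` acts trivially on the order. -/
def CMAct.Fix (c : CMAct τ ν W F) (σ : F ≃ₐ[K] F) : Prop := ∀ β, σ (c.inc β) = c.inc β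

/-- `ρ` is a cocycle with values in `GL_g(O)`. -/
def IsCocycle (c : CMAct τ ν W F) {g : ℕ}
    (ρ : (F ≃ₐ[K] F) → Matrix (Fin g) (Fin g) (Oq τ ν)) : Prop :=
  ρ 1 = 1 ∧ ∀ σ σ', ρ (σ * σ') = ρ σ * (ρ σ').map (cj (c.Fix σ))

/-- The form given by the cocycle does not split over a smaller field: an element of `G` which acts
trivially on `O` and on which the cocycle is trivial is trivial. -/
def IsFaithful (c : CMAct τ ν W F) {g : ℕ}
    (ρ : (F ≃ₐ[K] F) → Matrix (Fin g) (Fin g) (Oq τ ν)) : Prop :=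
  ∀ σ, c.Fix σ → ρ σ = 1 → σ = 1

/-- `P` is a `K`-point of the form `A` of `W ^ g` given by the cocycle `ρ`:
`ρ(σ) σ(P) = P` for all `σ`. -/
def IsKPointO (c : CMAct τ ν W F) {g : ℕ}
    (ρ : (F ≃ₐ[K] F) → Matrix (Fin g) (Fin g) (Oq τ ν))
    (P : Fin g → (W.baseChange F).toAffine.Point) : Prop :=
  ∀ σ a, ∑ b, c.act (ρ σ a b) (LangForms.gal σ (P b)) = P a

/-- `M` is the matrix of a polarisation of `W ^ g`: Hermitian and positive definite. -/
def IsPolO {g : ℕ} (M : Matrix (Fin g) (Fin g) (Oq τ ν)) : Prop :=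
  M.conjTranspose = M ∧ ∀ v : Fin g → Oq τ ν, v ≠ 0 → 0 < (star v ⬝ᵥ M.mulVec v).re

/-- `M` is the matrix of a polarisation of the form `A` of `W ^ g` given by `ρ`. -/
def IsPolFormO (c : CMAct τ ν W F) {g : ℕ}
    (ρ : (F ≃ₐ[K] F) → Matrix (Fin g) (Fin g) (Oq τ ν)) (M : Matrix (Fin g) (Fin g) (Oq τ ν)) :
    Prop :=
  IsPolO M ∧ ∀ σ, (ρ σ).conjTranspose * M * ρ σ = M.map (cj (c.Fix σ))

/-- The group of points generated by the points `(v₁ Q, …, v_g Q)` with `v ∈ L` and `Q` a point of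
`W`; these are points of the abelian subvariety of `W ^ g` attached to `L`. -/
def subPtsO (c : CMAct τ ν W F) {g : ℕ} (L : Submodule (Oq τ ν) (Fin g → Oq τ ν)) :
    AddSubgroup (Fin g → (W.baseChange F).toAffine.Point) :=
  AddSubgroup.closure {P | ∃ v ∈ L, ∃ Q, P = fun a => c.act (v a) Q}

end

/-- The Gram matrix of the vectors `v i` for the trace form `Tr (v* M w)`. -/
def trGram {τ ν : ℤ} {g d : ℕ} (M : Matrix (Fin g) (Fin g) (Oq τ ν)) (v : Fin d → Fin g → Oq τ ν) :
    Matrix (Fin d) (Fin d) ℤ :=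
  Matrix.of fun i j => QuadraticAlgebra.trace (star (v i) ⬝ᵥ M.mulVec (v j))

/-- The vectors `v i` form a `ℤ`-basis of the submodule `L` of `O ^ g`. -/
def IsZBasis {τ ν : ℤ} {g d : ℕ} (L : Submodule (Oq τ ν) (Fin g → Oq τ ν))
    (v : Fin d → Fin g → Oq τ ν) : Prop :=
  LinearIndependent ℤ v ∧ Submodule.span ℤ (Set.range v) = L.restrictScalars ℤ

/-- `d` is the degree of the abelian subvariety of `W ^ g` attached to `L`, for the polarisation
with matrix `M`: `d = r! (D / |disc O| ^ r) ^ (1 / 2)` where `2 r` is the rank of `L` over `ℤ` and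
`D` the determinant of the trace form on a `ℤ`-basis of `L`. -/
def IsDeg {τ ν : ℤ} {g : ℕ} (M : Matrix (Fin g) (Fin g) (Oq τ ν))
    (L : Submodule (Oq τ ν) (Fin g → Oq τ ν)) (d : ℝ) : Prop :=
  ∃ (r : ℕ) (v : Fin (2 * r) → Fin g → Oq τ ν), IsZBasis L v ∧
    d = r.factorial * Real.sqrt ((trGram M v).det / ((4 * ν - τ ^ 2 : ℤ) : ℝ) ^ r)

/-- Alternative (a): a proper abelian subvariety `B` defined over `K` (given by a saturated
submodule `L` of `O ^ g` which is stable under the twisted action of `G`), of degree at most `c`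
times the degree of `A`, such that the order of `P` modulo `B` is at most `c`. -/
def ObstructedO {τ ν : ℤ} {K : Type} [Field K] {W : WeierstrassCurve K} {F : Type} [Field F]
    [DecidableEq F] [Algebra K F] (cm : CMAct τ ν W F) {g : ℕ}
    (ρ : (F ≃ₐ[K] F) → Matrix (Fin g) (Fin g) (Oq τ ν)) (M : Matrix (Fin g) (Fin g) (Oq τ ν))
    (P : Fin g → (W.baseChange F).toAffine.Point) (c : ℝ) : Prop :=
  ∃ L : Submodule (Oq τ ν) (Fin g → Oq τ ν), L ≠ ⊤ ∧
    (∀ (α : Oq τ ν) (v : Fin g → Oq τ ν), α ≠ 0 → α • v ∈ L → v ∈ L) ∧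
    (∀ σ, ∀ v ∈ L, (ρ σ).mulVec (fun a => cj (cm.Fix σ) (v a)) ∈ L) ∧
    (∃ dB dA : ℝ, IsDeg M L dB ∧ IsDeg M ⊤ dA ∧ dB ≤ c * dA) ∧
    ∃ n : ℕ, 1 ≤ n ∧ (n : ℝ) ≤ c ∧ n • P ∈ subPtsO cm L

/-- The Neron-Tate height on `W ^ g` attached to the symmetric line bundle with Hermitian matrix
`M`: the sum of `⟨P_a, M_ab P_b⟩`. -/
noncomputable def ntM {τ ν : ℤ} {K : Type} [Field K] {W : WeierstrassCurve K} {F : Type} [Field F]
    [NumberField F] [DecidableEq F] [Algebra K F] (cm : CMAct τ ν W F) {g : ℕ}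
    (M : Matrix (Fin g) (Fin g) (Oq τ ν)) (P : Fin g → (W.baseChange F).toAffine.Point) : ℝ :=
  ∑ a, ∑ b, pairX nt (P a) (cm.act (M a b) (P b))

end LangCM
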