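import Pool.Agent.Lib_MP_f5471b_cm.RatA

/-!
# Piece RATHT: Neron-Tate heights and complex multiplication
-/

set_option autoImplicit false

namespace LangCM

open LangForms Height NumberField WeierstrassCurve Topology Filter

private theorem ratht_norm {τ ν : ℤ} (hD : τ ^ 2 < 4 * ν) (α : Oq τ ν) (hα : α ≠ 0) :
    ∃ N : ℕ, 0 < N ∧ α.norm = (N : ℤ) := by
  have h1 : α.norm = α.re * α.re + τ * α.re * α.im - -ν * α.im * α.im := QuadraticAlgebra.norm_def α
  have h2 : 0 < α.norm := by
    rw [h1]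
    by_cases him : α.im = 0
    · have hre : α.re ≠ 0 := by
        intro h
        apply hα
        ext
        · simpa using h
        · simpa using him
      rw [him]
      have h3 : 0 < α.re * α.re := mul_self_pos.2 hre
      linarith
    · have h3 : 0 < α.im * α.im := mul_self_pos.2 him
      nlinarith [sq_nonneg (2 * α.re + τ * α.im)]
  exact ⟨α.norm.toNat, by omega, by omega⟩

private theorem ratht_star_mul {K F : Type} [Field K] [NumberField K] [Field F] [NumberField F]
    [DecidableEq F] [Algebra K F] {W : WeierstrassCurve K} {τ ν : ℤ}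
    (cm : CMAct τ ν W F) (α : Oq τ ν) {N : ℕ} (hN : α.norm = (N : ℤ))
    (Q : (W.baseChange F).toAffine.Point) :
    cm.act α (cm.act (star α) Q) = N • Q := by
  have h1 : α * star α = (N : Oq τ ν) := by
    rw [← QuadraticAlgebra.algebraMap_norm_eq_mul_star, hN, map_natCast]
  have h2 : cm.act α (cm.act (star α) Q) = cm.act (α * star α) Q := by
    rw [map_mul]
    rfl
  rw [h2, h1, map_natCast]
  exact AddMonoid.End.natCast_apply N Q

private theorem ratht_le {K F : Type} [Field K] [NumberField K] [Field F] [NumberField F]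
    [DecidableEq F] [Algebra K F] {W : WeierstrassCurve K} [W.IsElliptic] {τ ν : ℤ}
    (cm : CMAct τ ν W F) (α : Oq τ ν) (hα : α ≠ 0) (Q : (W.baseChange F).toAffine.Point) :
    nt (cm.act α Q) ≤ α.norm * nt Q := by
  obtain ⟨C, hC⟩ := hx_act_le cm α hα
  obtain ⟨C', _, hpar⟩ := approx_par
  have h1 := canX_tendsto (X := (W.baseChange F).toAffine.Point) hx _
    (hpar F (W.baseChange F)) (cm.act α Q)
  have h2 := canX_tendsto (X := (W.baseChange F).toAffine.Point) hx _
    (hpar F (W.baseChange F)) Q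
  have h3 : Tendsto (fun n : ℕ => C * (1 / 4 : ℝ) ^ n) atTop (𝓝 0) := by
    simpa using (tendsto_pow_atTop_nhds_zero_of_lt_one (by norm_num : (0 : ℝ) ≤ 1 / 4)
      (by norm_num)).const_mul C
  have h4 := (h2.const_mul (α.norm : ℝ)).add h3
  have h5 : canX hx (cm.act α Q) ≤ (α.norm : ℝ) * canX hx Q + 0 := by
    refine le_of_tendsto_of_tendsto' h1 h4 fun n => ?_
    have h6 := hC ((2 ^ n) • Q)
    rw [map_nsmul] at h6
    have h7 : (0 : ℝ) < 4 ^ n := by positivity
    have h8 : (α.norm : ℝ) * (hx ((2 ^ n) • Q) / 4 ^ n) + C * (1 / 4) ^ n =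
        ((α.norm : ℝ) * hx ((2 ^ n) • Q) + C) / 4 ^ n := by
      rw [one_div, inv_pow]
      field_simp
    rw [h8]
    exact div_le_div_of_nonneg_right h6 h7.le
  rw [add_zero] at h5
  have hd : (0 : ℝ) < Module.finrank ℚ F := by exact_mod_cast Module.finrank_pos
  simp only [nt]
  rw [← mul_div_assoc]
  exact div_le_div_of_nonneg_right h5 (by positivity)

/-- `[α]` multiplies the Neron-Tate height by `N(α)`. PROOF. `α = 0` is clear (`nt_zero`). For
`α ≠ 0`, `N(α) > 0` (as `τ ^ 2 < 4 ν`): apply `hx_act_le` to `2 ^ n • Q`, divide by `4 ^ n` and let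
`n → ∞` (`canX_tendsto` with `approx_par`): `nt ([α] Q) ≤ N(α) nt Q` for all `Q`. Apply this to
`star α` and the point `[α] Q`: as `star α * α = N(α)` (`QuadraticAlgebra.algebraMap_norm_eq_mul_star`)
and `nt (N Q) = N ^ 2 nt Q` (`nt_nsmul`), `N ^ 2 nt Q ≤ N nt ([α] Q)`. -/
theorem nt_act {K F : Type} [Field K] [NumberField K] [Field F] [NumberField F] [DecidableEq F]
    [Algebra K F] {W : WeierstrassCurve K} [W.IsElliptic] {τ ν : ℤ} (hD : τ ^ 2 < 4 * ν)
    (cm : CMAct τ ν W F) (α : Oq τ ν) (Q : (W.baseChange F).toAffine.Point) :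
    nt (cm.act α Q) = α.norm * nt Q := by
  by_cases hα : α = 0
  · rw [hα, map_zero, QuadraticAlgebra.norm_zero, Int.cast_zero, zero_mul]
    exact nt_zero
  · obtain ⟨N, hN0, hN⟩ := ratht_norm hD α hα
    refine le_antisymm (ratht_le cm α hα Q) ?_
    have hα' : star α ≠ 0 := fun h => hα (star_eq_zero.1 h)
    have h1 := ratht_le cm (star α) hα' (cm.act α Q)
    have hN' : (star α).norm = (N : ℤ) := by rw [QuadraticAlgebra.norm_star, hN]
    have h2 := ratht_star_mul cm (star α) hN' Q
    rw [star_star] at h2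
    rw [h2, nt_nsmul, hN'] at h1
    rw [hN]
    have h3 : (0 : ℝ) < (N : ℝ) := by exact_mod_cast hN0
    push_cast at h1 ⊢
    have h4 : (N : ℝ) * ((N : ℝ) * nt Q) ≤ (N : ℝ) * nt (cm.act α Q) := by
      calc (N : ℝ) * ((N : ℝ) * nt Q) = (N : ℝ) ^ 2 * nt Q := by ring
        _ ≤ _ := h1
    exact le_of_mul_le_mul_left h4 h3

/-- `[α]` and `[star α]` are adjoint for the Neron-Tate pairing. PROOF. By polarising `nt_act`,
`pairX nt ([α] P) ([α] Q) = N(α) pairX nt P Q` for all `P, Q`. So for `α ≠ 0`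
`N(α) pairX nt ([α] P) Q = pairX nt ([α] P) (N(α) Q) = pairX nt ([α] P) ([α] [star α] Q)
= N(α) pairX nt P ([star α] Q)`; `pairX nt` is bilinear (`psd_pairX_add_left`, `psd_pairX_comm`,
`psd_pair_Phi_left` in `Psd.lean`, hypotheses `nt_par`, `nt_nonneg`). -/
theorem pair_act {K F : Type} [Field K] [NumberField K] [Field F] [NumberField F] [DecidableEq F]
    [Algebra K F] {W : WeierstrassCurve K} [W.IsElliptic] {τ ν : ℤ} (hD : τ ^ 2 < 4 * ν)
    (cm : CMAct τ ν W F) (α : Oq τ ν) (P Q : (W.baseChange F).toAffine.Point) :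
    pairX nt (cm.act α P) Q = pairX nt P (cm.act (star α) Q) := by
  have hpar : ∀ P Q : (W.baseChange F).toAffine.Point,
      nt (P + Q) + nt (P - Q) = 2 * nt P + 2 * nt Q := nt_par
  by_cases hα : α = 0
  · have h0 : ∀ R : (W.baseChange F).toAffine.Point, cm.act 0 R = 0 := by
      intro R
      rw [map_zero]
      rfl
    rw [hα, star_zero, h0, h0]
    unfold pairX
    rw [zero_add, add_zero, nt_zero]
    ring
  · obtain ⟨N, hN0, hN⟩ := ratht_norm hD α hα
    have h1 : pairX nt (cm.act α P) (cm.act α (cm.act (star α) Q)) =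
        (N : ℝ) * pairX nt P (cm.act (star α) Q) := by
      unfold pairX
      rw [← map_add, nt_act hD cm α, nt_act hD cm α P, nt_act hD cm α (cm.act (star α) Q), hN]
      push_cast
      ring
    rw [ratht_star_mul cm α hN] at h1
    have h2 : pairX nt (cm.act α P) (N • Q) = (N : ℝ) * pairX nt (cm.act α P) Q := by
      rw [psd_pairX_comm hpar, psd_pairX_comm hpar (cm.act α P) Q]
      have h3 := map_nsmul (psd_pairHom hpar (cm.act α P)) N Q
      rw [nsmul_eq_mul] at h3
      exact h3
    rw [h2] at h1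
    have h3 : (N : ℝ) ≠ 0 := by exact_mod_cast hN0.ne'
    exact mul_left_cancel₀ h3 h1

end LangCM
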