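import Pool.Agent.Lib_MP_f5471b_cm.IntP
import Pool.Agent.Lib_MP_f5471b_cm.RatHt

/-!
# Piece HTM: the height for the trace form
-/

set_option autoImplicit false

namespace LangCM

open Matrix LangForms Height NumberField WeierstrassCurve

variable {τ ν : ℤ} {g : ℕ} {K F : Type} [Field K] [NumberField K] [Field F] [NumberField F]
  [DecidableEq F] [Algebra K F] {W : WeierstrassCurve K} [W.IsElliptic]

theorem htm_ident (τ ν : ℤ) (z : Oq τ ν) :
    ∑ i : Fin 2, ∑ j : Fin 2, QuadraticAlgebra.trace (star (be τ ν i) * z * be τ ν j) •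
      (star (al τ ν i) * al τ ν j) = (4 * ν - τ ^ 2 : ℤ) • z := by
  ext
  · simp [Fin.sum_univ_two, be, al, QuadraticAlgebra.trace_def, QuadraticAlgebra.re_one,
      QuadraticAlgebra.im_one, -zsmul_eq_mul, QuadraticAlgebra.re_smul,
      QuadraticAlgebra.re_ofNat, QuadraticAlgebra.im_ofNat]
    ring
  · simp [Fin.sum_univ_two, be, al, QuadraticAlgebra.trace_def, QuadraticAlgebra.re_one,
      QuadraticAlgebra.im_one, -zsmul_eq_mul, QuadraticAlgebra.im_smul,
      QuadraticAlgebra.re_ofNat, QuadraticAlgebra.im_ofNat]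
    ring

section abs

variable {X : Type} [AddCommGroup X] {q : X → ℝ}
  (hq : ∀ P Q, q (P + Q) + q (P - Q) = 2 * q P + 2 * q Q)

/-- The pairing `⟨[γ] R, Q⟩` as an additive function of `γ`. -/
noncomputable def htmHom (act : Oq τ ν →+* AddMonoid.End X) (R Q : X) :
    Oq τ ν →+ ℝ :=
  AddMonoidHom.mk' (fun γ => pairX q (act γ R) Q) fun γ δ => by
    rw [map_add]
    exact psd_pairX_add_left hq _ _ _

theorem htmHom_apply (act : Oq τ ν →+* AddMonoid.End X) (R Q : X)
    (γ : Oq τ ν) : htmHom hq act R Q γ = pairX q (act γ R) Q := rfl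

include hq in
theorem htm_key (act : Oq τ ν →+* AddMonoid.End X)
    (had : ∀ (α : Oq τ ν) (P Q : X), pairX q (act α P) Q = pairX q P (act (star α) Q))
    (z : Oq τ ν) (Q R : X) :
    ∑ i : Fin 2, ∑ j : Fin 2,
      ((QuadraticAlgebra.trace (star (be τ ν i) * z * be τ ν j) : ℤ) : ℝ) *
        pairX q (act (al τ ν i) Q) (act (al τ ν j) R) =
      (4 * ν - τ ^ 2 : ℤ) * pairX q Q (act z R) := by
  have hc : ∀ A B : X, pairX q A B = pairX q B A := fun A B => psd_pairX_comm hq A B
  have h1 : ∀ i j : Fin 2, pairX q (act (al τ ν i) Q) (act (al τ ν j) R) =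
      htmHom hq act R Q (star (al τ ν i) * al τ ν j) := by
    intro i j
    rw [htmHom_apply, had, map_mul, hc]
    rfl
  have h2 : pairX q Q (act z R) = htmHom hq act R Q z := by
    rw [htmHom_apply, hc]
  rw [h2]
  have h3 := congrArg (htmHom hq act R Q) (htm_ident τ ν z)
  rw [map_zsmul, zsmul_eq_mul] at h3
  rw [← h3, map_sum]
  refine Finset.sum_congr rfl fun i _ => ?_
  rw [map_sum]
  refine Finset.sum_congr rfl fun j _ => ?_
  rw [map_zsmul, zsmul_eq_mul, h1]

include hq in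
theorem htm_abs (act : Oq τ ν →+* AddMonoid.End X)
    (had : ∀ (α : Oq τ ν) (P Q : X), pairX q (act α P) Q = pairX q P (act (star α) Q))
    (M : Matrix (Fin g) (Fin g) (Oq τ ν)) (P : Fin g → X) :
    ∑ k, ∑ l, ((MM M k l : ℤ) : ℝ) * pairX q (act (al τ ν (pr g k).2) (P (pr g k).1))
      (act (al τ ν (pr g l).2) (P (pr g l).1)) =
      (4 * ν - τ ^ 2 : ℤ) * ∑ a, ∑ b, pairX q (P a) (act (M a b) (P b)) := by
  have hs : ∀ f : Fin g × Fin 2 → ℝ, ∑ k : Fin (g * 2), f (pr g k) =
      ∑ a : Fin g, ∑ i : Fin 2, f (a, i) := by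
    intro f
    rw [Equiv.sum_comp (pr g) f, Fintype.sum_prod_type]
  have e1 : ∀ k : Fin (g * 2), ∑ l : Fin (g * 2),
      ((MM M k l : ℤ) : ℝ) * pairX q (act (al τ ν (pr g k).2) (P (pr g k).1))
      (act (al τ ν (pr g l).2) (P (pr g l).1)) =
      (fun p : Fin g × Fin 2 => ∑ b : Fin g, ∑ j : Fin 2,
        ((QuadraticAlgebra.trace (star (be τ ν p.2) * M p.1 b * be τ ν j) : ℤ) : ℝ) *
          pairX q (act (al τ ν p.2) (P p.1)) (act (al τ ν j) (P b))) (pr g k) := by
    intro k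
    exact hs (fun r : Fin g × Fin 2 =>
      ((QuadraticAlgebra.trace (star (be τ ν (pr g k).2) * M (pr g k).1 r.1 *
        be τ ν r.2) : ℤ) : ℝ) *
          pairX q (act (al τ ν (pr g k).2) (P (pr g k).1)) (act (al τ ν r.2) (P r.1)))
  rw [Finset.sum_congr rfl fun k _ => e1 k]
  rw [hs (fun p : Fin g × Fin 2 => ∑ b : Fin g, ∑ j : Fin 2,
        ((QuadraticAlgebra.trace (star (be τ ν p.2) * M p.1 b * be τ ν j) : ℤ) : ℝ) *
          pairX q (act (al τ ν p.2) (P p.1)) (act (al τ ν j) (P b)))]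
  rw [Finset.mul_sum]
  refine Finset.sum_congr rfl fun a _ => ?_
  rw [Finset.mul_sum, Finset.sum_comm]
  refine Finset.sum_congr rfl fun b _ => ?_
  exact htm_key hq act had (M a b) (P a) (P b)

end abs

/-- The height of the points `[α_i] P_a` for the trace form is `|disc|` times the height of `P`.
PROOF. For fixed `a, b` and `z = M a b` put `T = ∑_{i,j} trace (star β_i z β_j)
pairX nt ([α_i] P_a) ([α_j] P_b)`. By `pair_act` and additivity of `pairX nt P_a` in the second
variable, `T = pairX nt P_a ([γ] P_b)` with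
`γ = ∑_{i,j} trace (star β_i z β_j) star α_i α_j`, and `γ = (4 ν - τ ^ 2) z`: a polynomial identity in
`z.re, z.im, τ, ν` (expand both coordinates, `ring`). -/
theorem ntL_PP (hD : τ ^ 2 < 4 * ν) (cm : CMAct τ ν W F) (M : Matrix (Fin g) (Fin g) (Oq τ ν))
    (P : Fin g → (W.baseChange F).toAffine.Point) :
    ntL (MM M) (PP cm P) = (4 * ν - τ ^ 2 : ℤ) * ntM cm M P := by
  exact htm_abs (q := nt) (@nt_par F _ _ _ (W.baseChange F) _) cm.act
    (fun α P Q => pair_act hD cm α P Q) M P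

end LangCM
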