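import Pool.Agent.Lib_MP_f5471b_cm.FinalJ
import Pool.Agent.Lib_MP_f5471b_cm.HtM
import Pool.Agent.Lib_MP_f5471b_cm.BackA
import Pool.Agent.Lib_MP_f5471b_cm.BackB
import Pool.Agent.Lib_MP_f5471b_cm.BackP

/-!
# MP_f5471b_nt, complex multiplication: the main theorem
-/

set_option autoImplicit false

namespace LangCM

open Matrix LangForms Height NumberField WeierstrassCurve

section

variable {τ ν : ℤ} {g : ℕ}

/-- The integral matrix of `ω`. -/
def Jw (τ ν : ℤ) (g : ℕ) : Matrix (Fin (g * 2)) (Fin (g * 2)) ℤ :=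
  TT ((⟨0, 1⟩ : Oq τ ν) • (1 : Matrix (Fin g) (Fin g) (Oq τ ν)))

theorem map_id_cj {e : Prop} (he : e) (M : Matrix (Fin g) (Fin g) (Oq τ ν)) :
    M.map (cj e) = M := by
  ext1 a b
  simp [cj, he]

theorem map_star_cj {e : Prop} (he : ¬ e) (M : Matrix (Fin g) (Fin g) (Oq τ ν)) :
    M.map (cj e) = M.map star := by
  ext1 a b
  simp [cj, he]

theorem Jw_sq : Jw τ ν g * Jw τ ν g = τ • Jw τ ν g - ν • 1 := by
  rw [Jw, ← TT_mul, Matrix.smul_mul, Matrix.one_mul, smul_smul]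
  have e : (⟨0, 1⟩ : Oq τ ν) * ⟨0, 1⟩ = ⟨-ν, τ⟩ := by
    ext <;> simp
  rw [e, TT_smul_one, neg_smul]
  abel

theorem Jw_comm (Y : Matrix (Fin g) (Fin g) (Oq τ ν)) : TT Y * Jw τ ν g = Jw τ ν g * TT Y := by
  rw [Jw, ← TT_mul, ← TT_mul, Matrix.mul_smul, Matrix.smul_mul, Matrix.mul_one, Matrix.one_mul]

theorem Jw_SS : SS τ ν g * Jw τ ν g = (τ • 1 - Jw τ ν g) * SS τ ν g := by
  have e : ((⟨0, 1⟩ : Oq τ ν) • (1 : Matrix (Fin g) (Fin g) (Oq τ ν))).map star =
      (⟨τ, -1⟩ : Oq τ ν) • (1 : Matrix (Fin g) (Fin g) (Oq τ ν)) := by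
    ext1 a b
    by_cases h : a = b
    · subst h
      simp only [Matrix.map_apply, Matrix.smul_apply, Matrix.one_apply_eq, smul_eq_mul, mul_one]
      ext <;> simp
    · simp [Matrix.one_apply_ne h]
  rw [Jw, SS_TT, e, TT_smul_one]
  congr 1
  rw [neg_smul, one_smul]
  abel

end

section

variable {τ ν : ℤ} {g : ℕ} {K F : Type} [Field K] [Field F] [DecidableEq F] [Algebra K F]
  {W : WeierstrassCurve K}

theorem jdata (cm : CMAct τ ν W F) (ρ : (F ≃ₐ[K] F) → Matrix (Fin g) (Fin g) (Oq τ ν))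
    (M : Matrix (Fin g) (Fin g) (Oq τ ν))
    (R : (F ≃ₐ[K] F) →* Matrix.GeneralLinearGroup (Fin (g * 2)) ℤ)
    (hR1 : ∀ σ, cm.Fix σ → (R σ).val = TT (ρ σ))
    (hR2 : ∀ σ, ¬ cm.Fix σ → (R σ).val = TT (ρ σ) * SS τ ν g) :
    JData R (MM M) (Jw τ ν g) τ ν := by
  refine ⟨Jw_sq, MM_omega M, fun σ => ?_⟩
  by_cases h : cm.Fix σ
  · left
    rw [hR1 σ h, Jw_comm]
  · right
    rw [hR2 σ h, Matrix.mul_assoc, Jw_SS, ← Matrix.mul_assoc, ← Matrix.mul_assoc]
    congr 1
    simp only [Matrix.mul_sub, Matrix.sub_mul, Matrix.mul_smul, Matrix.smul_mul, Matrix.mul_one,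
      Matrix.one_mul, Jw_comm]

theorem PP_om (cm : CMAct τ ν W F) (P : Fin g → (W.baseChange F).toAffine.Point)
    (k : Fin (g * 2)) :
    ∑ l, Jw τ ν g k l • PP cm P l = cm.act ⟨0, 1⟩ (PP cm P k) := by
  rw [Jw, PP_TT]
  have e : (fun a => ∑ b, cm.act (((⟨0, 1⟩ : Oq τ ν) •
      (1 : Matrix (Fin g) (Fin g) (Oq τ ν))) a b) (P b)) = fun a => cm.act ⟨0, 1⟩ (P a) := by
    funext a
    rw [Finset.sum_eq_single a]
    · simp
    · intro b _ hb
      rw [Matrix.smul_apply, Matrix.one_apply_ne (Ne.symm hb), smul_zero, map_zero]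
      rfl
    · intro ha
      exact absurd (Finset.mem_univ a) ha
  rw [e]
  simp only [PP, act_mul]
  rw [mul_comm]

end

theorem cm_forms (K : Type) [Field K] [NumberField K] (W : WeierstrassCurve K) [W.IsElliptic]
    (τ ν : ℤ) (hD : τ ^ 2 < 4 * ν) (g : ℕ) (hg : 1 ≤ g) :
    ∃ c₁ c₂ : ℝ, 0 < c₁ ∧ 0 < c₂ ∧
    ∀ (F : Type) [Field F] [NumberField F] [DecidableEq F] [Algebra K F] [IsGalois K F]
    (cm : CMAct τ ν W F) (ρ : (F ≃ₐ[K] F) → Matrix (Fin g) (Fin g) (Oq τ ν))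
    (M : Matrix (Fin g) (Fin g) (Oq τ ν)) (P : Fin g → (W.baseChange F).toAffine.Point),
    IsCocycle cm ρ → IsFaithful cm ρ → IsPolFormO cm ρ M → IsKPointO cm ρ P →
    ObstructedO cm ρ M P c₂ ∨
      ((∀ n : ℕ, 1 ≤ n → n • P ≠ 0) ∧ c₁ ≤ ntM cm M P ∧ RamLe K F c₁ (ntM cm M P)) := by
  have hν : 1 ≤ ν := by nlinarith [sq_nonneg τ]
  obtain ⟨a₁, a₂, ha₁, ha₂, hmain⟩ := fixed_curveJ K W (g * 2) (by omega) τ ν hν hD
  obtain ⟨d, hd⟩ : ∃ d : ℕ, d = (4 * ν - τ ^ 2).toNat := ⟨_, rfl⟩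
  have hd1 : 1 ≤ d := by omega
  have hdZ : (4 * ν - τ ^ 2 : ℤ) = d := by omega
  have hdR : (1 : ℝ) ≤ d := by exact_mod_cast hd1
  obtain ⟨E, hE⟩ : ∃ E : ℝ, E = Real.sqrt (a₂ * (g * 2).factorial * (4 * ν - τ ^ 2 : ℤ) ^ g) :=
    ⟨_, rfl⟩
  refine ⟨a₁ / d, max (a₂ * d) E, by positivity, lt_of_lt_of_le (by positivity) (le_max_left _ _),
    ?_⟩
  intro F _ _ _ _ _ cm ρ M P hρ hf hM hP
  obtain ⟨R, hR1, hR2⟩ := exists_hom hD cm ρ hρ
  have hRinj : Function.Injective R := by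
    rw [injective_iff_map_eq_one]
    intro σ hσ
    have h1 : (R σ).val = 1 := by rw [hσ]; rfl
    by_cases h : cm.Fix σ
    · apply hf σ h
      apply TT_inj
      rw [← hR1 σ h, h1, TT_one]
    · exfalso
      rw [hR2 σ h] at h1
      exact SS_ne hg (ρ σ) h1
  have hinv : ∀ σ, (R σ).val.transpose * MM M * (R σ).val = MM M := by
    intro σ
    by_cases h : cm.Fix σ
    · rw [hR1 σ h]
      apply MM_inv
      rw [hM.2 σ, map_id_cj h]
    · rw [hR2 σ h]
      apply MM_inv_star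
      rw [hM.2 σ, map_star_cj h]
  have hpol : IsPol (MM M) := MM_isPol hD M hM.1
  have hht := ntL_PP hD cm M P
  rw [hdZ] at hht
  push_cast at hht
  rcases hmain F R hRinj (MM M) hpol hinv (Jw τ ν g) (jdata cm ρ M R hR1 hR2) (cm.act ⟨0, 1⟩)
    (PP cm P) (PP_om cm P) (PP_kpoint cm ρ P hP R hR1 hR2) with hob | ⟨hnt, hlow⟩
  · left
    obtain ⟨Λ, h1, h2, h3, h4, h5, m, hm1, hm2, hm3⟩ := hob
    obtain ⟨L, hL⟩ := exists_sub Λ h4
    obtain ⟨dB, dA, hdB, hdA, hle⟩ := deg_compare hD M hM.1 Λ L hL a₂ ha₂.le h5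
    refine ⟨L, ?_, ?_, ?_, ⟨dB, dA, hdB, hdA, ?_⟩, m * d, Nat.mul_pos hm1 hd1, ?_, ?_⟩
    · intro htop
      apply h1
      rw [eq_top_iff]
      intro v _
      rw [← hL v, htop]
      trivial
    · intro α w hα hw
      obtain ⟨v, rfl⟩ := (th_bij (τ := τ) (ν := ν) (g := g)).2 w
      have h6 : α.norm • th τ ν v ∈ L := by
        have h7 : (α.norm : ℤ) • th τ ν v = star α • α • th τ ν v := by
          rw [smul_smul, mul_comm, ← QuadraticAlgebra.algebraMap_norm_eq_mul_star]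
          rw [algebraMap_smul]
        rw [h7]
        exact L.smul_mem _ hw
      rw [← th_smul, hL] at h6
      rw [hL]
      refine h2 _ v ?_ h6
      intro h0
      apply hα
      have e1 : α.norm = α.re * α.re + τ * α.re * α.im - -ν * α.im * α.im :=
        QuadraticAlgebra.norm_def α
      have e2 : (2 * α.re + τ * α.im) ^ 2 + (4 * ν - τ ^ 2) * α.im ^ 2 = 0 := by
        have : (2 * α.re + τ * α.im) ^ 2 + (4 * ν - τ ^ 2) * α.im ^ 2 = 4 * α.norm := by
          rw [e1]; ring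
        rw [this, h0, mul_zero]
      have e3 : α.im = 0 := by
        by_contra hne
        have : 0 < α.im ^ 2 := by positivity
        nlinarith [sq_nonneg (2 * α.re + τ * α.im), mul_pos (sub_pos.mpr hD) this]
      have e4 : α.re = 0 := by
        rw [e3] at e2
        have : α.re ^ 2 = 0 := by nlinarith
        exact pow_eq_zero_iff (two_ne_zero) |>.mp this
      ext
      · exact e4
      · exact e3
    · intro σ w hw
      obtain ⟨v, rfl⟩ := (th_bij (τ := τ) (ν := ν) (g := g)).2 w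
      rw [hL] at hw
      have h6 := h3 σ v hw
      rw [← hL] at h6
      by_cases h : cm.Fix σ
      · rw [hR1 σ h, th_TT] at h6
        convert h6 using 2
        funext a
        simp [cj, h]
      · rw [hR2 σ h, ← Matrix.mulVec_mulVec, th_TT, th_SS] at h6
        have h7 := L.neg_mem h6
        convert h7 using 1
        rw [← Matrix.mulVec_neg]
        congr 1
        funext a
        simp [cj, h]
    · have hdA0 : 0 ≤ dA := by
        obtain ⟨r, v, _, rfl⟩ := hdA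
        positivity
      refine hle.trans (mul_le_mul_of_nonneg_right ?_ hdA0)
      rw [← hE]
      exact le_max_right _ _
    · push_cast
      refine le_trans ?_ (le_max_left _ _)
      exact mul_le_mul_of_nonneg_right hm2 (by positivity)
    · rw [hd]
      exact back_points hD cm Λ L hL P m hm3
  · right
    have hdpos : (0 : ℝ) < d := by linarith
    refine ⟨?_, ?_, ?_⟩
    · intro n hn h0
      apply hnt n hn
      funext k
      have h6 := congrFun h0 (pr g k).1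
      show n • cm.act (al τ ν (pr g k).2) (P (pr g k).1) = 0
      rw [← map_nsmul]
      have h7 : n • P (pr g k).1 = 0 := h6
      rw [h7, map_zero]
    · have h6 := hlow ∅ (by simp)
      rw [hht] at h6
      rw [div_le_iff₀ hdpos]
      have h7 : a₁ * 1 ≤ a₁ * max 1 ((∑ p ∈ (∅ : Finset (Ideal (𝓞 K))),
          Real.log (Ideal.absNorm p)) / Module.finrank ℚ K) :=
        mul_le_mul_of_nonneg_left (le_max_left _ _) ha₁.le
      linarith
    · intro S hS
      have h6 := hlow S hS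
      rw [hht] at h6
      have h7 : a₁ * ((∑ p ∈ S, Real.log (Ideal.absNorm p)) / Module.finrank ℚ K) ≤
          a₁ * max 1 ((∑ p ∈ S, Real.log (Ideal.absNorm p)) / Module.finrank ℚ K) :=
        mul_le_mul_of_nonneg_left (le_max_right _ _) ha₁.le
      rw [div_mul_eq_mul_div, div_le_iff₀ hdpos]
      linarith

end LangCM
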