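import Pool.Agent.Lib_MP_f5471b_nt.Key
import Pool.Agent.Lib_MP_f5471b_cm.CoreJ

/-!
# MP_f5471b_nt, complex multiplication: the key lemmas
-/

set_option autoImplicit false

namespace LangCM

open LangForms Matrix

section

variable {G : Type} [Group G] {n : ℕ} {ρ : G →* Matrix.GeneralLinearGroup (Fin n) ℤ}
  {M J : Matrix (Fin n) (Fin n) ℤ} {τ ν : ℤ}

theorem val_mul (a b : G) : (ρ (a * b)).val = (ρ a).val * (ρ b).val := by
  rw [map_mul]; rfl

theorem val_inv_mul (a : G) : (ρ a⁻¹).val * (ρ a).val = 1 := by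
  rw [← val_mul, inv_mul_cancel, map_one]; rfl

theorem val_mul_inv (a : G) : (ρ a).val * (ρ a⁻¹).val = 1 := by
  rw [← val_mul, mul_inv_cancel, map_one]; rfl

/-- The subgroup of the elements that commute with `J`. -/
def linSub (hJ : JData ρ M J τ ν) : Subgroup G where
  carrier := {σ | (ρ σ).val * J = J * (ρ σ).val}
  mul_mem' := by
    intro a b ha hb
    simp only [Set.mem_ofPred_eq] at ha hb ⊢
    rw [val_mul, Matrix.mul_assoc, hb, ← Matrix.mul_assoc, ha, Matrix.mul_assoc]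
  one_mem' := by
    simp only [Set.mem_ofPred_eq, map_one]
    simp
  inv_mem' := by
    intro a ha
    simp only [Set.mem_ofPred_eq] at ha ⊢
    calc (ρ a⁻¹).val * J = (ρ a⁻¹).val * (J * ((ρ a).val * (ρ a⁻¹).val)) := by
          rw [val_mul_inv, Matrix.mul_one]
      _ = (ρ a⁻¹).val * ((ρ a).val * J) * (ρ a⁻¹).val := by
          rw [ha]; simp only [Matrix.mul_assoc]
      _ = J * (ρ a⁻¹).val := by
          rw [← Matrix.mul_assoc (ρ a⁻¹).val, val_inv_mul, Matrix.one_mul]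

theorem mem_linSub (hJ : JData ρ M J τ ν) (σ : G) :
    σ ∈ linSub hJ ↔ (ρ σ).val * J = J * (ρ σ).val := Iff.rfl

theorem semi_inv (σ : G) (h : (ρ σ).val * J = (τ • 1 - J) * (ρ σ).val) :
    J * (ρ σ⁻¹).val = (ρ σ⁻¹).val * (τ • 1 - J) := by
  calc J * (ρ σ⁻¹).val = ((ρ σ⁻¹).val * (ρ σ).val) * J * (ρ σ⁻¹).val := by
        rw [val_inv_mul, Matrix.one_mul]
    _ = (ρ σ⁻¹).val * ((ρ σ).val * J) * (ρ σ⁻¹).val := by simp only [Matrix.mul_assoc]
    _ = (ρ σ⁻¹).val * (τ • 1 - J) * ((ρ σ).val * (ρ σ⁻¹).val) := by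
        rw [h]; simp only [Matrix.mul_assoc]
    _ = (ρ σ⁻¹).val * (τ • 1 - J) := by rw [val_mul_inv, Matrix.mul_one]

theorem linSub_normal (hJ : JData ρ M J τ ν) : (linSub hJ).Normal := by
  constructor
  intro n hn γ
  rw [mem_linSub] at hn ⊢
  rcases hJ.comm γ with h | h
  · have h1 : γ ∈ linSub hJ := h
    have h2 : n ∈ linSub hJ := hn
    exact (linSub hJ).mul_mem ((linSub hJ).mul_mem h1 h2) ((linSub hJ).inv_mem h1)
  · have h2 := semi_inv γ h
    have h3 : (ρ γ⁻¹).val * J = (τ • 1 - J) * (ρ γ⁻¹).val := by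
      have : (ρ γ⁻¹).val * J = τ • (ρ γ⁻¹).val - (ρ γ⁻¹).val * (τ • 1 - J) := by
        simp only [Matrix.mul_sub, Matrix.mul_smul, Matrix.mul_one]
        abel
      rw [this, ← h2]
      simp only [Matrix.sub_mul, Matrix.smul_mul, Matrix.one_mul]
    have h4 : (ρ n).val * (τ • 1 - J) = (τ • 1 - J) * (ρ n).val := by
      simp only [Matrix.mul_sub, Matrix.sub_mul, Matrix.mul_smul, Matrix.smul_mul, Matrix.mul_one,
        Matrix.one_mul, hn]
    have h5 : (ρ γ).val * (τ • 1 - J) = J * (ρ γ).val := by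
      simp only [Matrix.mul_sub, Matrix.mul_smul, Matrix.mul_one, h, Matrix.sub_mul,
        Matrix.smul_mul, Matrix.one_mul]
      abel
    rw [val_mul, val_mul]
    calc (ρ γ).val * (ρ n).val * (ρ γ⁻¹).val * J
        = (ρ γ).val * (ρ n).val * ((ρ γ⁻¹).val * J) := by simp only [Matrix.mul_assoc]
      _ = (ρ γ).val * ((ρ n).val * (τ • 1 - J)) * (ρ γ⁻¹).val := by
          rw [h3]; simp only [Matrix.mul_assoc]
      _ = (ρ γ).val * (τ • 1 - J) * (ρ n).val * (ρ γ⁻¹).val := by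
          rw [h4]; simp only [Matrix.mul_assoc]
      _ = J * ((ρ γ).val * (ρ n).val * (ρ γ⁻¹).val) := by
          rw [h5]; simp only [Matrix.mul_assoc]

end

theorem ObstructedJ.mono {G : Type} [Group G] {X : Type} [AddCommGroup X] {n : ℕ}
    {ρ : G →* Matrix.GeneralLinearGroup (Fin n) ℤ} {M J : Matrix (Fin n) (Fin n) ℤ}
    (hM : IsPol M) {P : Fin n → X} {c c' : ℝ} (h : c ≤ c') (ho : ObstructedJ ρ M J P c) :
    ObstructedJ ρ M J P c' := by
  obtain ⟨Λ, h1, h2, h3, h4, h5, m, hn1, hn2, hn3⟩ := ho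
  refine ⟨Λ, h1, h2, h3, h4, h5.trans ?_, m, hn1, hn2.trans h, hn3⟩
  have : (0 : ℝ) < degB M ⊤ := by exact_mod_cast degB_top_pos M hM
  nlinarith

theorem key2J (g D : ℕ) (hg : 1 ≤ g) (τ ν : ℤ) (hν : 1 ≤ ν) : ∃ C : ℝ, 0 < C ∧
    ∀ (G : Type) [Group G] [Finite G],
    Nat.card G ≤ D → ∀ (X : Type) [AddCommGroup X] (act : G → X →+ X)
    (ρ : G →* Matrix.GeneralLinearGroup (Fin g) ℤ)
    (M : Matrix (Fin g) (Fin g) ℤ), IsPol M →
    (∀ σ, (ρ σ).val.transpose * M * (ρ σ).val = M) →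
    ∀ (J : Matrix (Fin g) (Fin g) ℤ), JData ρ M J τ ν →
    ∀ (om : X →+ X) (P : Fin g → X), (∀ a, ∑ b, J a b • P b = om (P a)) →
    (∀ σ a, ∑ b, (ρ σ).val a b • act σ (P b) = P a) → ∀ t : ℕ, 1 ≤ t →
    ObstructedJ ρ M J P (C * t) ∨ ∃ ℓ : Fin g → ℤ, Sh M C ℓ ∧ t • Phi P ℓ ≠ 0 := by
  obtain ⟨C, hC, h⟩ := coreJ g D τ ν hν g
  refine ⟨max C g, lt_of_lt_of_le hC (le_max_left _ _), ?_⟩
  intro G _ _ hG X _ act ρ M hM hinv J hJ om P hom hP t ht
  obtain ⟨κ, hκ0, hκ⟩ := minkA hg M hM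
  obtain ⟨ℓ, _, hℓ0, hℓ, hob⟩ := h G hG X act ρ M hM hinv J hJ om P hom hP ⊤
    (fun _ _ _ _ => trivial) (fun _ _ _ => trivial) (fun _ _ => trivial) ⟨κ, trivial, hκ0, hκ⟩
  by_cases h0 : t • Phi P ℓ = 0
  · left
    refine (hob t ht h0).mono hM ?_
    exact mul_le_mul_of_nonneg_right (le_max_left _ _) (Nat.cast_nonneg _)
  · right
    exact ⟨ℓ, Sh_mono M hM (le_max_right _ _) ℓ hℓ, h0⟩

theorem UN_J {G : Type} [Group G] [Finite G] {g : ℕ}
    (ρ : G →* Matrix.GeneralLinearGroup (Fin g) ℤ) (J : Matrix (Fin g) (Fin g) ℤ)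
    (N : Subgroup G) (hN : ∀ σ ∈ N, (ρ σ).val * J = J * (ρ σ).val) (ℓ : Fin g → ℤ)
    (hℓ : ℓ ∈ UN ρ N) : ℓ ᵥ* J ∈ UN ρ N := by
  have := Fintype.ofFinite N
  have hS : J * UNm.S ρ N = UNm.S ρ N * J := by
    rw [UNm.S, finsum_eq_sum_of_fintype, Matrix.mul_sum, Matrix.sum_mul]
    exact Finset.sum_congr rfl fun n _ => (hN n n.2).symm
  rw [UNm.mem_UN] at hℓ ⊢
  rw [Matrix.vecMul_vecMul, hS, ← Matrix.vecMul_vecMul, hℓ, Matrix.zero_vecMul]

theorem key1J (g D : ℕ) (hg : 1 ≤ g) (τ ν : ℤ) (hν : 1 ≤ ν) (hD : τ ^ 2 < 4 * ν) :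
    ∃ C : ℝ, 0 < C ∧ ∀ (G : Type) [Group G] [Finite G],
    Nat.card G ≤ D → ∀ (X : Type) [AddCommGroup X] (act : G → X →+ X)
    (ρ : G →* Matrix.GeneralLinearGroup (Fin g) ℤ), Function.Injective ρ →
    ∀ (M : Matrix (Fin g) (Fin g) ℤ), IsPol M →
    (∀ σ, (ρ σ).val.transpose * M * (ρ σ).val = M) →
    ∀ (J : Matrix (Fin g) (Fin g) ℤ), JData ρ M J τ ν →
    ∀ (om : X →+ X) (P : Fin g → X), (∀ a, ∑ b, J a b • P b = om (P a)) →
    (∀ σ a, ∑ b, (ρ σ).val a b • act σ (P b) = P a) → ∀ H : Subgroup G, H ≠ ⊥ →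
    ObstructedJ ρ M J P C ∨
      ∃ σ ∈ H, ∃ ℓ : Fin g → ℤ, Sh M C ℓ ∧ act σ (Phi P ℓ) ≠ Phi P ℓ := by
  classical
  obtain ⟨C, hC, h⟩ := coreJ g D τ ν hν (4 * g * (D : ℝ) ^ 2)
  obtain ⟨C', hC', h'⟩ := key2J g D hg τ ν hν
  obtain ⟨d, hd⟩ : ∃ d : ℕ, d = (4 * ν - τ ^ 2).toNat := ⟨_, rfl⟩
  have hd1 : 1 ≤ d := by omega
  have hdZ : (d : ℤ) = 4 * ν - τ ^ 2 := by omega
  have hDnn : (0 : ℝ) ≤ D := Nat.cast_nonneg _
  have hν0 : (1 : ℝ) ≤ ν := by exact_mod_cast hν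
  have hd0 : (1 : ℝ) ≤ d := by exact_mod_cast hd1
  obtain ⟨B, hB⟩ : ∃ B : ℝ, B = max (max (C * (max D 1 : ℕ)) (4 * g * (D : ℝ) ^ 2))
      (max (C' * d) (ν * C')) := ⟨_, rfl⟩
  have hB1 : C * (max D 1 : ℕ) ≤ B := by
    rw [hB]; exact (le_max_left _ _).trans (le_max_left _ _)
  have hB2 : 4 * g * (D : ℝ) ^ 2 ≤ B := by
    rw [hB]; exact (le_max_right _ _).trans (le_max_left _ _)
  have hB3 : C' * d ≤ B := by
    rw [hB]; exact (le_max_left _ _).trans (le_max_right _ _)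
  have hB4 : ν * C' ≤ B := by
    rw [hB]; exact (le_max_right _ _).trans (le_max_right _ _)
  have hB5 : C' ≤ B := by nlinarith
  refine ⟨B, lt_of_lt_of_le hC' hB5, ?_⟩
  intro G _ _ hG X _ act ρ hρ M hM hinv J hJ om P hom hP H hH
  by_cases hlin : ∀ σ ∈ H, (ρ σ).val * J = J * (ρ σ).val
  · -- the linear case
    obtain ⟨N, hN⟩ : ∃ N : Subgroup G, N = Subgroup.normalClosure (H : Set G) := ⟨_, rfl⟩
    have hNn : N.Normal := by rw [hN]; exact Subgroup.normalClosure_normal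
    have hHN : H ≤ N := by
      intro x hx; rw [hN]; exact Subgroup.subset_normalClosure hx
    have hNbot : N ≠ ⊥ := fun h0 => hH (le_bot_iff.1 (h0 ▸ hHN))
    have hNlin : N ≤ linSub hJ := by
      have := linSub_normal hJ
      rw [hN]
      exact Subgroup.normalClosure_le_normal (fun x hx => hlin x hx)
    have hcard : (Nat.card G : ℝ) ≤ D := by exact_mod_cast hG
    obtain ⟨κ, hκU, hκ0, hκ⟩ := UN_short ρ hρ M hM hinv N hNbot
    have hκ' : Sh M (4 * g * (D : ℝ) ^ 2) κ := by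
      refine Sh_mono M hM ?_ κ hκ
      gcongr
    obtain ⟨ℓ, hℓU, hℓ0, hℓ, hob⟩ := h G hG X act ρ M hM hinv J hJ om P hom hP (UN ρ N)
      (UN_saturated ρ N) (fun σ ℓ hℓ => UN_stable ρ N σ ℓ hℓ)
      (fun ℓ hℓ => UN_J ρ J N (fun σ hσ => hNlin hσ) ℓ hℓ) ⟨κ, hκU, hκ0, hκ'⟩
    have hNfin : Finite N := inferInstance
    have hNpos : 1 ≤ Nat.card N := Nat.card_pos
    have hNG : Nat.card N ≤ Nat.card G := Subgroup.card_le_card_group N
    by_cases h0 : Nat.card N • Phi P ℓ = 0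
    · left
      refine (hob (Nat.card N) hNpos h0).mono hM (le_trans ?_ hB1)
      refine mul_le_mul_of_nonneg_left ?_ hC.le
      exact_mod_cast (hNG.trans hG).trans (le_max_left _ _)
    · right
      by_contra hcon
      push Not at hcon
      have hfix : ∀ σ ∈ H, ∀ τ : G, Phi P (actL ρ (σ * τ) ℓ) = Phi P (actL ρ τ ℓ) := by
        intro σ hσ τ
        rw [actL_mul, ← Phi_act act ρ P hP]
        exact hcon σ hσ _ (Sh_mono M hM hB2 _ (Sh_act ρ M hinv _ ℓ hℓ τ))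
      -- the subgroup of elements fixing all values
      let S : Subgroup G :=
        { carrier := {n | ∀ τ : G, Phi P (actL ρ (n * τ) ℓ) = Phi P (actL ρ τ ℓ)}
          mul_mem' := by
            intro a b ha hb τ
            rw [mul_assoc, ha, hb]
          one_mem' := by intro τ; rw [one_mul]
          inv_mem' := by
            intro a ha τ
            have := ha (a⁻¹ * τ)
            rw [← mul_assoc, mul_inv_cancel, one_mul] at this
            exact this.symm }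
      have hSn : S.Normal := by
        constructor
        intro n hn γ τ
        have h1 := hn (γ⁻¹ * τ)
        have h2 : γ * n * γ⁻¹ * τ = γ * (n * (γ⁻¹ * τ)) := by group
        rw [h2, actL_mul, ← Phi_act act ρ P hP, h1, Phi_act act ρ P hP, ← actL_mul]
        congr 2
        group
      have hNS : N ≤ S := by
        rw [hN]
        exact Subgroup.normalClosure_le_normal (fun x hx => hfix x hx)
      apply h0
      have hsum := sum_actL_of_mem_UN ρ N ℓ hℓU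
      have := Fintype.ofFinite N
      rw [finsum_eq_sum_of_fintype] at hsum
      have h5 : Phi P (∑ n : N, actL ρ (n : G) ℓ) = 0 := by rw [hsum]; simp [Phi]
      rw [Key.Phi_finsum] at h5
      have h6 : ∀ n : N, Phi P (actL ρ (n : G) ℓ) = Phi P ℓ := by
        intro n
        have := hNS n.2 1
        rwa [mul_one, actL_one] at this
      rw [Finset.sum_congr rfl (fun n _ => h6 n), Finset.sum_const, Finset.card_univ,
        ← Nat.card_eq_fintype_card] at h5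
      exact h5
  · -- the semilinear case
    push Not at hlin
    obtain ⟨σ, hσ, hne⟩ := hlin
    have hsemi := (hJ.comm σ).resolve_left hne
    rcases h' G hG X act ρ M hM hinv J hJ om P hom hP d hd1 with hob | ⟨ℓ, hℓ, h0⟩
    · exact Or.inl (hob.mono hM hB3)
    right
    by_cases h1 : act σ (Phi P ℓ) = Phi P ℓ
    · refine ⟨σ, hσ, ℓ ᵥ* J, Sh_mono M hM hB4 _ (Sh_J hJ C' ℓ hℓ), ?_⟩
      intro h2
      apply h0
      obtain ⟨x, hx⟩ : ∃ x, x = Phi P ℓ := ⟨_, rfl⟩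
      have h3 : act σ (Phi P (ℓ ᵥ* J)) = τ • x - om x := by
        rw [Phi_act act ρ P hP]
        have e1 : actL ρ σ (ℓ ᵥ* J) = τ • actL ρ σ ℓ - actL ρ σ ℓ ᵥ* J := by
          simp only [actL]
          rw [Matrix.vecMul_vecMul, semi_inv σ hsemi, ← Matrix.vecMul_vecMul, Matrix.vecMul_sub,
            Matrix.vecMul_smul, Matrix.vecMul_one]
        rw [e1, Phi_sub, Phi_smul, Phi_J J om P hom, ← Phi_act act ρ P hP, h1, ← hx]
      have h4 : Phi P (ℓ ᵥ* J) = om x := by rw [Phi_J J om P hom, hx]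
      rw [h3, h4] at h2
      have h5 : om (om x) = τ • om x - ν • x := by
        have e1 : Phi P ((ℓ ᵥ* J) ᵥ* J) = om (om x) := by
          rw [Phi_J J om P hom, h4]
        rw [← e1, Matrix.vecMul_vecMul, hJ.sq, Matrix.vecMul_sub, Matrix.vecMul_smul,
          Matrix.vecMul_smul, Matrix.vecMul_one, Phi_sub, Phi_smul, Phi_smul, h4, ← hx]
      have h6 : τ • x = om x + om x := sub_eq_iff_eq_add.1 h2
      have h7 := congrArg om h6
      rw [map_zsmul, map_add, h5] at h7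
      have h8 : (4 * ν - τ ^ 2) • x = 0 := by
        linear_combination (norm := module) (-τ) • h6 + (2 : ℤ) • h7
      rw [← hx, ← natCast_zsmul, hdZ]
      exact h8
    · exact ⟨σ, hσ, ℓ, Sh_mono M hM hB5 _ hℓ, h1⟩

end LangCM
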