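import Pool.Agent.Lib_MP_f5471b_nt.Final
import Pool.Agent.Lib_MP_f5471b_cm.KeyJ

/-!
# MP_f5471b_nt, complex multiplication: the lower bound in terms of the integral data
-/

set_option autoImplicit false

namespace LangCM

open LangForms Height NumberField WeierstrassCurve Topology Filter IsDedekindDomain

theorem uniform_lower_boundJ (K : Type) [Field K] [NumberField K] (g : ℕ) (hg : 1 ≤ g)
    (τ ν : ℤ) (hν : 1 ≤ ν) (hD : τ ^ 2 < 4 * ν) :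
    ∃ c₁ c₂ : ℝ, 0 < c₁ ∧ 0 < c₂ ∧ ∀ (W : WeierstrassCurve K) [W.IsElliptic]
    (F : Type) [Field F] [NumberField F] [DecidableEq F] [Algebra K F] [IsGalois K F]
    (ρ : (F ≃ₐ[K] F) →* Matrix.GeneralLinearGroup (Fin g) ℤ), Function.Injective ρ →
    ∀ (M : Matrix (Fin g) (Fin g) ℤ), IsPol M →
    (∀ σ, (ρ σ).val.transpose * M * (ρ σ).val = M) →
    ∀ (J : Matrix (Fin g) (Fin g) ℤ), JData ρ M J τ ν →
    ∀ (om : (W.baseChange F).toAffine.Point →+ (W.baseChange F).toAffine.Point)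
    (P : Fin g → (W.baseChange F).toAffine.Point), (∀ a, ∑ b, J a b • P b = om (P a)) →
    (∀ σ a, ∑ b, (ρ σ).val a b • LangForms.gal σ (P b) = P a) →
    ObstructedJ ρ M J P c₂ ∨
      ∀ S : Finset (Ideal (𝓞 K)),
        (∀ p ∈ S, p.IsMaximal ∧ p ≠ ⊥ ∧ ¬ Algebra.IsUnramifiedIn (𝓞 F) p) →
        c₁ * ((∑ p ∈ S, Real.log (Ideal.absNorm p)) / Module.finrank ℚ K) ≤
          ntL M P + c₂ * (1 + hW W) := by
  obtain ⟨D₀, hD₀⟩ : ∃ D₀ : ℕ, D₀ = 3 ^ (g ^ 2) := ⟨_, rfl⟩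
  obtain ⟨C₁, hC₁, hkey⟩ := key1J g D₀ hg τ ν hν hD
  obtain ⟨Ca, hCa, happ⟩ := approx_par
  obtain ⟨Cr, hCr, har⟩ := arith_main
  have hDpos : (0 : ℝ) < D₀ := by rw [hD₀]; positivity
  obtain ⟨D', hD'⟩ : ∃ D' : ℝ, D' = 2 ^ D₀ := ⟨_, rfl⟩
  have hD'pos : 0 < D' := by rw [hD']; positivity
  refine ⟨1 / (2 * D' * (8 * D₀ * C₁)),
    max C₁ ((2 * D' * (Ca * D₀) + Cr * D₀) / (2 * D' * (8 * D₀ * C₁))), by positivity,
    lt_of_lt_of_le hC₁ (le_max_left _ _), ?_⟩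
  intro W _ F _ _ _ _ _ ρ hρ M hM hinv J hJ om P hom hP
  by_cases hob : ObstructedJ ρ M J P C₁
  · exact Or.inl (hob.mono hM (le_max_left _ _))
  right
  intro S hS
  have hcard : Nat.card (F ≃ₐ[K] F) ≤ D₀ := by
    rw [hD₀]; exact card_le_of_injective ρ hρ
  have hcardF : Nat.card (F ≃ₐ[K] F) = Module.finrank K F := IsGalois.card_aut_eq_finrank K F
  obtain ⟨T, hT1, hT2⟩ := exists_primes (F := F) S hS
  have hWF := hWrel_nonneg (W.baseChange F)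
  have hLnn : 0 ≤ ntL M P := ntL_nonneg M hM P
  have hnpos : (0 : ℝ) < Module.finrank ℚ K := by exact_mod_cast Module.finrank_pos
  have hFpos : (0 : ℝ) < Module.finrank ℚ F := by exact_mod_cast Module.finrank_pos
  have happ' := happ F (W.baseChange F)
  obtain ⟨E, hE⟩ : ∃ E : ℝ, E = Ca * (Module.finrank ℚ F + hWrel (W.baseChange F)) := ⟨_, rfl⟩
  rw [← hE] at happ'
  obtain ⟨B, hB⟩ : ∃ B : ℝ, B = 8 * Module.finrank ℚ F * C₁ * ntL M P + E := ⟨_, rfl⟩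
  have hEnn : 0 ≤ E := by rw [hE]; positivity
  have hBnn : 0 ≤ B := by rw [hB]; positivity
  have hQ : ∀ H : Subgroup (F ≃ₐ[K] F), H ≠ ⊥ → ∃ σ ∈ H,
      ∃ Q : (W.baseChange F).toAffine.Point, LangForms.gal σ Q ≠ Q ∧ hx Q ≤ B ∧ hx (LangForms.gal σ Q - Q) ≤ B := by
    intro H hH
    rcases hkey (F ≃ₐ[K] F) hcard _ LangForms.gal ρ hρ M hM hinv J hJ om P hom hP H hH with h | ⟨σ, hσ, ℓ, hℓ, hne⟩
    · exact absurd h hob
    refine ⟨σ, hσ, Phi P ℓ, hne, ?_, ?_⟩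
    · rw [hB]
      exact hx_Phi_le M hM C₁ E ℓ (Sh_mono M hM (by linarith) ℓ hℓ) P happ'
    · rw [Phi_act LangForms.gal ρ P hP, ← Phi_sub, hB]
      exact hx_Phi_le M hM C₁ E _ (Sh_sub M _ _ _ (Sh_act ρ M hinv _ _ hℓ σ) hℓ) P happ'
  have hmain := har K F W T hT1 B hBnn hQ
  have hsub : (Nat.card (Subgroup (F ≃ₐ[K] F)) : ℝ) ≤ D' := by
    rw [hD']; exact_mod_cast card_subgroup_le _ D₀ hcard
  have hW0 : 0 ≤ hW W := by
    have := hWrel_nonneg W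
    simp only [hW]; positivity
  have hfin := real_step D₀ D' C₁ Ca Cr (Module.finrank ℚ K) (Module.finrank K F) (ntL M P)
    (hW W) B E (Module.finrank ℚ F) (hWrel (W.baseChange F))
    (Nat.card (Subgroup (F ≃ₐ[K] F))) (∑ p ∈ S, Real.log (Ideal.absNorm p))
    (∑ v ∈ T, Real.log (Ideal.absNorm v.asIdeal)) hDpos hD'pos hC₁ hCa hCr hnpos
    (Nat.cast_nonneg _) (by rw [← hcardF]; exact_mod_cast hcard) hLnn hW0 (Nat.cast_nonneg _) hsub
    (by exact_mod_cast (Module.finrank_mul_finrank ℚ K F).symm)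
    (by rw [hWrel_baseChange, hW]; field_simp) hE hB hT2 hmain
  refine hfin.trans ?_
  have h1 : 0 ≤ 1 + hW W := by linarith
  have h2 := le_max_right C₁ ((2 * D' * (Ca * D₀) + Cr * D₀) / (2 * D' * (8 * D₀ * C₁)))
  have h3 := mul_le_mul_of_nonneg_right h2 h1
  linarith

theorem fixed_curveJ (K : Type) [Field K] [NumberField K] (W : WeierstrassCurve K) [W.IsElliptic]
    (g : ℕ) (hg : 1 ≤ g) (τ ν : ℤ) (hν : 1 ≤ ν) (hD : τ ^ 2 < 4 * ν) :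
    ∃ c₁ c₂ : ℝ, 0 < c₁ ∧ 0 < c₂ ∧
    ∀ (F : Type) [Field F] [NumberField F] [DecidableEq F] [Algebra K F] [IsGalois K F]
    (ρ : (F ≃ₐ[K] F) →* Matrix.GeneralLinearGroup (Fin g) ℤ), Function.Injective ρ →
    ∀ (M : Matrix (Fin g) (Fin g) ℤ), IsPol M →
    (∀ σ, (ρ σ).val.transpose * M * (ρ σ).val = M) →
    ∀ (J : Matrix (Fin g) (Fin g) ℤ), JData ρ M J τ ν →
    ∀ (om : (W.baseChange F).toAffine.Point →+ (W.baseChange F).toAffine.Point)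
    (P : Fin g → (W.baseChange F).toAffine.Point), (∀ a, ∑ b, J a b • P b = om (P a)) →
    (∀ σ a, ∑ b, (ρ σ).val a b • LangForms.gal σ (P b) = P a) →
    ObstructedJ ρ M J P c₂ ∨
      ((∀ n : ℕ, 1 ≤ n → n • P ≠ 0) ∧
      ∀ S : Finset (Ideal (𝓞 K)),
        (∀ p ∈ S, p.IsMaximal ∧ p ≠ ⊥ ∧ ¬ Algebra.IsUnramifiedIn (𝓞 F) p) →
        c₁ * max 1 ((∑ p ∈ S, Real.log (Ideal.absNorm p)) / Module.finrank ℚ K) ≤
          ntL M P) := by
  obtain ⟨c₁, c₂, hc₁, hc₂, hT2⟩ := uniform_lower_boundJ K g hg τ ν hν hD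
  obtain ⟨D₀, hD₀⟩ : ∃ D₀ : ℕ, D₀ = 3 ^ (g ^ 2) := ⟨_, rfl⟩
  obtain ⟨C₂, hC₂, hkey⟩ := key2J g D₀ hg τ ν hν
  obtain ⟨n₀, hn₀, lam, hlam, hgap⟩ := torsion_gap K W D₀
  have hWnn : 0 ≤ hW W := by
    have := hWrel_nonneg W
    simp only [hW]; positivity
  obtain ⟨e, he⟩ : ∃ e : ℝ, e = (1 + c₂ * (1 + hW W) * (C₂ / lam)) / c₁ := ⟨_, rfl⟩
  have hepos : 0 < e := by rw [he]; positivity
  obtain ⟨m, hm⟩ : ∃ m : ℝ, m = max e (C₂ / lam) := ⟨_, rfl⟩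
  have hmpos : 0 < m := by rw [hm]; exact lt_of_lt_of_le hepos (le_max_left _ _)
  refine ⟨m⁻¹, max c₂ (C₂ * n₀), by positivity,
    lt_of_lt_of_le hc₂ (le_max_left _ _), ?_⟩
  intro F _ _ _ _ _ ρ hρ M hM hinv J hJ om P hom hP
  by_cases hob : ObstructedJ ρ M J P (max c₂ (C₂ * n₀))
  · exact Or.inl hob
  right
  have hcard : Nat.card (F ≃ₐ[K] F) ≤ D₀ := by
    rw [hD₀]; exact card_le_of_injective ρ hρ
  have hcardF : Nat.card (F ≃ₐ[K] F) = Module.finrank K F := IsGalois.card_aut_eq_finrank K F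
  rcases hkey (F ≃ₐ[K] F) hcard _ LangForms.gal ρ M hM hinv J hJ om P hom hP n₀ hn₀ with h | ⟨ℓ, hℓ, hne⟩
  · exact absurd (h.mono hM (le_max_right _ _)) hob
  have hlow : lam ≤ nt (Phi P ℓ) := by
    rcases hgap F (by rw [← hcardF]; exact hcard) (Phi P ℓ) with h | h
    · exact absurd h hne
    · exact h
  have hup : nt (Phi P ℓ) ≤ C₂ * ntL M P := nt_Phi_le M hM _ ℓ hℓ P
  obtain ⟨L, hL⟩ : ∃ L : ℝ, L = ntL M P := ⟨_, rfl⟩
  have h1 : 1 ≤ C₂ / lam * ntL M P := by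
    rw [div_mul_eq_mul_div, le_div_iff₀ hlam]; linarith
  have hLpos : 0 < ntL M P := by
    by_contra hcon
    have : C₂ / lam * ntL M P ≤ 0 := mul_nonpos_of_nonneg_of_nonpos (by positivity) (not_lt.1 hcon)
    linarith
  refine ⟨?_, ?_⟩
  · intro n hn h0
    have h2 : n • Phi P ℓ = 0 := by
      rw [← Phi_nsmul, h0]; simp [Phi]
    have h3 := nt_nsmul n (Phi P ℓ)
    rw [h2, nt_zero] at h3
    have h5 : (0 : ℝ) < nt (Phi P ℓ) := lt_of_lt_of_le hlam hlow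
    have hnpos : (0 : ℝ) < n := by exact_mod_cast hn
    have h6 : (0 : ℝ) < (n : ℝ) ^ 2 * nt (Phi P ℓ) := by positivity
    linarith
  · intro S hS
    rcases hT2 W F ρ hρ M hM hinv J hJ om P hom hP with h | h
    · exact absurd (h.mono hM (le_max_left _ _)) hob
    have hR := h S hS
    obtain ⟨R, hRdef⟩ : ∃ R : ℝ, R = (∑ p ∈ S, Real.log (Ideal.absNorm p)) / Module.finrank ℚ K :=
      ⟨_, rfl⟩
    rw [← hRdef] at hR ⊢
    rw [← hL] at hR h1 hLpos ⊢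
    have hR' : R ≤ e * L := by
      rw [he, div_mul_eq_mul_div, le_div_iff₀ hc₁]
      have h8 : 0 ≤ c₂ * (1 + hW W) := by positivity
      have : c₂ * (1 + hW W) * 1 ≤ c₂ * (1 + hW W) * (C₂ / lam * L) :=
        mul_le_mul_of_nonneg_left h1 h8
      nlinarith
    have hmax : max 1 R ≤ m * L := by
      rw [hm]
      refine max_le ?_ ?_
      · exact h1.trans (mul_le_mul_of_nonneg_right (le_max_right _ _) hLpos.le)
      · exact hR'.trans (mul_le_mul_of_nonneg_right (le_max_left _ _) hLpos.le)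
    rw [inv_mul_le_iff₀ hmpos]
    exact hmax

end LangCM
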