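import Pool.Agent.Lib_MP_f5471b_cm.IntM

/-!
# Piece INTF: the integral matrix of the trace form
-/

set_option autoImplicit false

namespace LangCM

open Matrix LangForms

variable {τ ν : ℤ} {g : ℕ}

/-- Two integral matrices with the same bilinear form are equal. -/
theorem intF_ext {n : ℕ} {A B : Matrix (Fin n) (Fin n) ℤ}
    (h : ∀ v w : Fin n → ℤ, v ⬝ᵥ A *ᵥ w = v ⬝ᵥ B *ᵥ w) : A = B := by
  ext i j
  have h1 := h (Pi.single i 1) (Pi.single j 1)
  simpa using h1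

/-- The form of a conjugated matrix. -/
theorem intF_conj {n : ℕ} (A T : Matrix (Fin n) (Fin n) ℤ) (v w : Fin n → ℤ) :
    v ⬝ᵥ (Tᵀ * A * T) *ᵥ w = (T *ᵥ v) ⬝ᵥ A *ᵥ (T *ᵥ w) := by
  rw [← Matrix.mulVec_mulVec, ← Matrix.mulVec_mulVec, Matrix.dotProduct_mulVec,
    Matrix.vecMul_transpose]

/-- The Hermitian form and the adjoint. -/
theorem intF_adj (M Y : Matrix (Fin g) (Fin g) (Oq τ ν)) (x y : Fin g → Oq τ ν) :
    star (Y *ᵥ x) ⬝ᵥ M *ᵥ (Y *ᵥ y) = star x ⬝ᵥ (Yᴴ * M * Y) *ᵥ y := by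
  rw [← Matrix.mulVec_mulVec, ← Matrix.mulVec_mulVec, Matrix.star_mulVec,
    Matrix.dotProduct_mulVec (star x)]

/-- PROOF. Symmetry: `trace (star z) = trace z`. Positivity: `MM_form`, `th_bij`; the value
`z = star (th v) ⬝ᵥ M *ᵥ th v` is Hermitian (`star z = z`), so `z.im = 0` and
`trace z = 2 * z.re > 0`. -/
theorem MM_isPol (hD : τ ^ 2 < 4 * ν) (M : Matrix (Fin g) (Fin g) (Oq τ ν)) (hM : IsPolO M) :
    IsPol (MM M) := by
  constructor
  · ext k l
    have hM1 : star (M (pr g l).1 (pr g k).1) = M (pr g k).1 (pr g l).1 :=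
      congrFun (congrFun hM.1 (pr g k).1) (pr g l).1
    change QuadraticAlgebra.trace
        (star (be τ ν (pr g l).2) * M (pr g l).1 (pr g k).1 * be τ ν (pr g k).2) =
      QuadraticAlgebra.trace
        (star (be τ ν (pr g k).2) * M (pr g k).1 (pr g l).1 * be τ ν (pr g l).2)
    rw [← QuadraticAlgebra.trace_star, star_mul', star_mul', star_star, hM1]
    congr 1
    ring
  · intro v hv
    have h1 : v ⬝ᵥ MM M *ᵥ v = QuadraticAlgebra.trace (star (th τ ν v) ⬝ᵥ M *ᵥ th τ ν v) :=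
      MM_form M v v
    have hne : th τ ν v ≠ 0 := by
      intro h0
      apply hv
      apply (th_bij (τ := τ) (ν := ν) (g := g)).1
      rw [h0]
      have h2 := th_smul (τ := τ) (ν := ν) (0 : ℤ) v
      rw [zero_smul, zero_smul] at h2
      exact h2.symm
    have hpos := hM.2 _ hne
    have hstar : star (star (th τ ν v) ⬝ᵥ M *ᵥ th τ ν v) = star (th τ ν v) ⬝ᵥ M *ᵥ th τ ν v := by
      rw [← Matrix.star_dotProduct, Matrix.star_mulVec, ← Matrix.dotProduct_mulVec, hM.1]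
    have him : (star (th τ ν v) ⬝ᵥ M *ᵥ th τ ν v).im = 0 := by
      have h3 := congrArg QuadraticAlgebra.im hstar
      rw [QuadraticAlgebra.im_star] at h3
      omega
    change 0 < v ⬝ᵥ MM M *ᵥ v
    rw [h1, QuadraticAlgebra.trace_def, him, mul_zero, add_zero]
    have hpos' : 0 < (star (th τ ν v) ⬝ᵥ M *ᵥ th τ ν v).re := hpos
    omega

/-- Multiplication by `ω` is a similitude of ratio `ν`. PROOF. `MM_form`, `th_TT`, and equality of
bilinear forms gives equality of matrices. -/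
theorem MM_omega (M : Matrix (Fin g) (Fin g) (Oq τ ν)) :
    (TT ((⟨0, 1⟩ : Oq τ ν) • (1 : Matrix (Fin g) (Fin g) (Oq τ ν))))ᵀ * MM M *
      TT ((⟨0, 1⟩ : Oq τ ν) • (1 : Matrix (Fin g) (Fin g) (Oq τ ν))) = ν • MM M := by
  apply intF_ext
  intro v w
  rw [intF_conj, MM_form, th_TT, th_TT, Matrix.smul_mulVec, Matrix.smul_mulVec, Matrix.one_mulVec,
    Matrix.one_mulVec, Matrix.smul_mulVec, dotProduct_smul, MM_form, star_smul, smul_dotProduct,
    Matrix.mulVec_smul, dotProduct_smul, smul_smul]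
  have h1 : star (⟨0, 1⟩ : Oq τ ν) * (⟨0, 1⟩ : Oq τ ν) = algebraMap ℤ (Oq τ ν) ν := by
    ext <;> simp
  rw [h1, ← map_smul]
  congr 1
  rw [algebraMap_smul]

/-- Invariance, linear case. -/
theorem MM_inv (M Y : Matrix (Fin g) (Fin g) (Oq τ ν)) (h : Yᴴ * M * Y = M) :
    (TT Y)ᵀ * MM M * TT Y = MM M := by
  apply intF_ext
  intro v w
  rw [intF_conj, MM_form, th_TT, th_TT, MM_form, intF_adj, h]

/-- Invariance, semilinear case. -/
theorem MM_inv_star (M Y : Matrix (Fin g) (Fin g) (Oq τ ν)) (h : Yᴴ * M * Y = M.map star) :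
    (TT Y * SS τ ν g)ᵀ * MM M * (TT Y * SS τ ν g) = MM M := by
  apply intF_ext
  intro v w
  rw [intF_conj, MM_form, ← Matrix.mulVec_mulVec, ← Matrix.mulVec_mulVec, th_TT, th_TT, MM_form,
    intF_adj, h, th_SS, th_SS, ← QuadraticAlgebra.trace_star (star (th τ ν v) ⬝ᵥ M *ᵥ th τ ν w)]
  congr 1
  simp only [dotProduct, Matrix.mulVec, Matrix.map_apply, Pi.star_apply, star_sum, star_mul',
    star_star, star_neg, mul_neg, Finset.sum_neg_distrib, neg_mul, neg_neg]

end LangCM
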