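import Pool.Agent.Lib_MP_f5471b_cm.Defs

/-!
# Piece INTM: matrices over the quadratic order as integral matrices

The `ℤ`-basis `1, ω` of `O` is `al`; `be = (ω - τ, 1)` is `√D` times the dual basis for the trace.
-/

set_option autoImplicit false

namespace LangCM

open Matrix

variable {τ ν : ℤ} {g : ℕ}

/-- The index set `Fin (g * 2)` as pairs. -/
def pr (g : ℕ) : Fin (g * 2) ≃ Fin g × Fin 2 := finProdFinEquiv.symm

/-- The basis `1, ω`. -/
def al (τ ν : ℤ) : Fin 2 → Oq τ ν := ![1, ⟨0, 1⟩]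

/-- The basis `ω - τ, 1`. -/
def be (τ ν : ℤ) : Fin 2 → Oq τ ν := ![⟨-τ, 1⟩, 1]

/-- The coordinates with respect to `1, ω`. -/
def co (z : Oq τ ν) : Fin 2 → ℤ := ![z.re, z.im]

/-- The integral matrix of a matrix over `O` (acting on rows in the basis `al`). -/
def TT (Y : Matrix (Fin g) (Fin g) (Oq τ ν)) : Matrix (Fin (g * 2)) (Fin (g * 2)) ℤ :=
  Matrix.of fun k l => co (al τ ν (pr g k).2 * Y (pr g k).1 (pr g l).1) (pr g l).2

/-- The integral matrix of the conjugation. -/
def SS (τ ν : ℤ) (g : ℕ) : Matrix (Fin (g * 2)) (Fin (g * 2)) ℤ :=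
  Matrix.of fun k l => if (pr g k).1 = (pr g l).1 then co (star (al τ ν (pr g k).2)) (pr g l).2
    else 0

/-- The integral matrix of the trace form of a Hermitian matrix (on columns in the basis `be`). -/
def MM (M : Matrix (Fin g) (Fin g) (Oq τ ν)) : Matrix (Fin (g * 2)) (Fin (g * 2)) ℤ :=
  Matrix.of fun k l => QuadraticAlgebra.trace
    (star (be τ ν (pr g k).2) * M (pr g k).1 (pr g l).1 * be τ ν (pr g l).2)

/-- The element of `O ^ g` with coordinates `v` in the basis `be`. -/
def th (τ ν : ℤ) (v : Fin (g * 2) → ℤ) : Fin g → Oq τ ν :=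
  fun a => ∑ i : Fin 2, v ((pr g).symm (a, i)) • be τ ν i

/-- sums over `Fin (g * 2)` -/
private theorem INTM_sum {A : Type*} [AddCommMonoid A] (F : Fin (g * 2) → A) :
    ∑ k, F k = ∑ a : Fin g, ∑ i : Fin 2, F ((pr g).symm (a, i)) := by
  rw [← (pr g).symm.sum_comp F, Fintype.sum_prod_type]

private theorem INTM_TT (Y : Matrix (Fin g) (Fin g) (Oq τ ν)) (a b : Fin g) (i j : Fin 2) :
    TT Y ((pr g).symm (a, i)) ((pr g).symm (b, j)) = co (al τ ν i * Y a b) j := by
  simp [TT]

private theorem INTM_SS (a b : Fin g) (i j : Fin 2) :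
    SS τ ν g ((pr g).symm (a, i)) ((pr g).symm (b, j)) =
      if a = b then co (star (al τ ν i)) j else 0 := by
  simp [SS]

private theorem INTM_MM (M : Matrix (Fin g) (Fin g) (Oq τ ν)) (a b : Fin g) (i j : Fin 2) :
    MM M ((pr g).symm (a, i)) ((pr g).symm (b, j)) =
      QuadraticAlgebra.trace (star (be τ ν i) * M a b * be τ ν j) := by
  simp [MM]

private theorem INTM_ext {X Y : Matrix (Fin (g * 2)) (Fin (g * 2)) ℤ}
    (h : ∀ a b i j, X ((pr g).symm (a, i)) ((pr g).symm (b, j)) =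
      Y ((pr g).symm (a, i)) ((pr g).symm (b, j))) : X = Y := by
  ext k l
  obtain ⟨⟨a, i⟩, rfl⟩ := (pr g).symm.surjective k
  obtain ⟨⟨b, j⟩, rfl⟩ := (pr g).symm.surjective l
  exact h a b i j

private theorem INTM_co_add (x y : Oq τ ν) (j : Fin 2) : co (x + y) j = co x j + co y j := by
  fin_cases j <;> simp [QuadraticAlgebra.re_one, QuadraticAlgebra.im_one, co]

private theorem INTM_co_zero (j : Fin 2) : co (0 : Oq τ ν) j = 0 := by
  fin_cases j <;> simp [QuadraticAlgebra.re_one, QuadraticAlgebra.im_one, co]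

private theorem INTM_co_smul (n : ℤ) (x : Oq τ ν) (j : Fin 2) : co (n • x) j = n * co x j := by
  fin_cases j <;> simp [QuadraticAlgebra.re_one, QuadraticAlgebra.im_one, co]

private theorem INTM_co_sum {ι : Type*} (s : Finset ι) (f : ι → Oq τ ν) (j : Fin 2) :
    co (∑ i ∈ s, f i) j = ∑ i ∈ s, co (f i) j := by
  classical
  induction s using Finset.induction_on with
  | empty => simp [INTM_co_zero]
  | insert a s ha ih => rw [Finset.sum_insert ha, Finset.sum_insert ha, INTM_co_add, ih]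

private theorem INTM_co_ext {x y : Oq τ ν} (h : ∀ j, co x j = co y j) : x = y :=
  QuadraticAlgebra.ext (h 0) (h 1)

/-- `∑_j co z j * co (al j * y) m = co (z * y) m` -/
private theorem INTM_co_mul (z y : Oq τ ν) (m : Fin 2) :
    ∑ j : Fin 2, co z j * co (al τ ν j * y) m = co (z * y) m := by
  fin_cases m <;> simp [QuadraticAlgebra.re_one, QuadraticAlgebra.im_one, co, al, Fin.sum_univ_two] <;> ring

/-- `∑_j co z j * co (star (al j)) m = co (star z) m` -/
private theorem INTM_co_star (z : Oq τ ν) (m : Fin 2) :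
    ∑ j : Fin 2, co z j * co (star (al τ ν j)) m = co (star z) m := by
  fin_cases m <;> simp [QuadraticAlgebra.re_one, QuadraticAlgebra.im_one, co, al, Fin.sum_univ_two] <;> ring

private theorem INTM_co_one (i j : Fin 2) : co (al τ ν i) j = if i = j then 1 else 0 := by
  fin_cases i <;> fin_cases j <;> simp [QuadraticAlgebra.re_one, QuadraticAlgebra.im_one, co, al]

private theorem INTM_al_zero : al τ ν 0 = 1 := rfl

/-- `∑_i co (al i * y) j • be i = y * be j` -/
private theorem INTM_be (y : Oq τ ν) (j : Fin 2) :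
    ∑ i : Fin 2, co (al τ ν i * y) j • be τ ν i = y * be τ ν j := by
  fin_cases j <;> ext <;> simp [QuadraticAlgebra.re_one, QuadraticAlgebra.im_one, co, al, be, Fin.sum_univ_two] <;> ring

/-- PROOF. `∑_j co (z) j • al j = z` and `co (z * y) = ∑_j co z j * co (al j * y)`. -/
theorem TT_mul (Y Z : Matrix (Fin g) (Fin g) (Oq τ ν)) : TT (Y * Z) = TT Y * TT Z := by
  refine INTM_ext fun a c i m => ?_
  rw [INTM_TT, Matrix.mul_apply, Matrix.mul_apply, INTM_sum, Finset.mul_sum, INTM_co_sum]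
  refine Finset.sum_congr rfl fun b _ => ?_
  rw [← mul_assoc, ← INTM_co_mul]
  refine Finset.sum_congr rfl fun j _ => ?_
  rw [INTM_TT, INTM_TT]

theorem TT_one : TT (1 : Matrix (Fin g) (Fin g) (Oq τ ν)) = 1 := by
  refine INTM_ext fun a b i j => ?_
  rw [INTM_TT, Matrix.one_apply, Matrix.one_apply]
  by_cases h : a = b
  · subst h
    rw [if_pos rfl, mul_one, INTM_co_one]
    by_cases h2 : i = j
    · rw [if_pos h2, if_pos (by rw [h2])]
    · rw [if_neg h2, if_neg]
      intro h3
      exact h2 (Prod.ext_iff.1 ((pr g).symm.injective h3)).2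
  · rw [if_neg h, mul_zero, INTM_co_zero, if_neg]
    intro h3
    exact h (Prod.ext_iff.1 ((pr g).symm.injective h3)).1

theorem TT_inj {Y Z : Matrix (Fin g) (Fin g) (Oq τ ν)} (h : TT Y = TT Z) : Y = Z := by
  ext1 a b
  refine INTM_co_ext fun j => ?_
  have h1 := INTM_TT Y a b 0 j
  have h2 := INTM_TT Z a b 0 j
  rw [INTM_al_zero, one_mul] at h1 h2
  rw [← h1, ← h2, h]

/-- The matrix of multiplication by `α`. -/
theorem TT_smul_one (α : Oq τ ν) : TT (α • (1 : Matrix (Fin g) (Fin g) (Oq τ ν))) =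
    α.re • 1 + α.im • TT ((⟨0, 1⟩ : Oq τ ν) • (1 : Matrix (Fin g) (Fin g) (Oq τ ν))) := by
  rw [← TT_one (τ := τ) (ν := ν) (g := g)]
  refine INTM_ext fun a b i j => ?_
  rw [Matrix.add_apply, Matrix.smul_apply, Matrix.smul_apply, INTM_TT, INTM_TT, INTM_TT,
    Matrix.smul_apply, Matrix.smul_apply]
  by_cases h : a = b
  · subst h
    rw [Matrix.one_apply_eq]
    fin_cases i <;> fin_cases j <;> simp [QuadraticAlgebra.re_one, QuadraticAlgebra.im_one, co, al] <;> ring
  · rw [Matrix.one_apply_ne h, smul_zero, smul_zero, mul_zero, INTM_co_zero, smul_zero, smul_zero,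
      add_zero]

theorem SS_sq : SS τ ν g * SS τ ν g = 1 := by
  rw [← TT_one (τ := τ) (ν := ν) (g := g)]
  refine INTM_ext fun a c i m => ?_
  rw [INTM_TT, Matrix.mul_apply, INTM_sum, Finset.sum_eq_single a]
  · have h1 : ∀ j : Fin 2, SS τ ν g ((pr g).symm (a, i)) ((pr g).symm (a, j)) *
        SS τ ν g ((pr g).symm (a, j)) ((pr g).symm (c, m)) =
        if a = c then co (star (al τ ν i)) j * co (star (al τ ν j)) m else 0 := by
      intro j
      rw [INTM_SS, INTM_SS, if_pos rfl]
      split_ifs <;> simp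
    rw [Finset.sum_congr rfl fun j _ => h1 j]
    by_cases h : a = c
    · subst h
      rw [Matrix.one_apply_eq, mul_one]
      simp only [if_true]
      rw [INTM_co_star, star_star]
    · simp [h, INTM_co_zero]
  · intro b _ hb
    refine Finset.sum_eq_zero fun j _ => ?_
    rw [INTM_SS, if_neg (Ne.symm hb), zero_mul]
  · intro h
    exact absurd (Finset.mem_univ a) h

theorem SS_TT (Y : Matrix (Fin g) (Fin g) (Oq τ ν)) :
    SS τ ν g * TT Y = TT (Y.map star) * SS τ ν g := by
  refine INTM_ext fun a c i m => ?_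
  rw [Matrix.mul_apply, Matrix.mul_apply, INTM_sum, INTM_sum, Finset.sum_eq_single a,
    Finset.sum_eq_single c]
  · have h1 : ∀ j : Fin 2, SS τ ν g ((pr g).symm (a, i)) ((pr g).symm (a, j)) *
        TT Y ((pr g).symm (a, j)) ((pr g).symm (c, m)) =
        co (star (al τ ν i)) j * co (al τ ν j * Y a c) m := by
      intro j
      rw [INTM_SS, INTM_TT, if_pos rfl]
    have h2 : ∀ j : Fin 2, TT (Y.map star) ((pr g).symm (a, i)) ((pr g).symm (c, j)) *
        SS τ ν g ((pr g).symm (c, j)) ((pr g).symm (c, m)) =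
        co (al τ ν i * star (Y a c)) j * co (star (al τ ν j)) m := by
      intro j
      rw [INTM_SS, INTM_TT, if_pos rfl, Matrix.map_apply]
    rw [Finset.sum_congr rfl fun j _ => h1 j, Finset.sum_congr rfl fun j _ => h2 j, INTM_co_mul,
      INTM_co_star, star_mul, star_star, mul_comm]
  · intro b _ hb
    refine Finset.sum_eq_zero fun j _ => ?_
    rw [INTM_SS, if_neg hb, mul_zero]
  · intro h
    exact absurd (Finset.mem_univ c) h
  · intro b _ hb
    refine Finset.sum_eq_zero fun j _ => ?_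
    rw [INTM_SS, if_neg (Ne.symm hb), zero_mul]
  · intro h
    exact absurd (Finset.mem_univ a) h

theorem SS_ne (hg : 1 ≤ g) (Y : Matrix (Fin g) (Fin g) (Oq τ ν)) : TT Y * SS τ ν g ≠ 1 := by
  intro h
  have h1 : TT Y = SS τ ν g := by
    have h2 : TT Y * (SS τ ν g * SS τ ν g) = SS τ ν g := by
      rw [← mul_assoc, h, one_mul]
    rwa [SS_sq, mul_one] at h2
  let a : Fin g := ⟨0, hg⟩
  have h3 : Y a a = 1 := by
    refine INTM_co_ext fun j => ?_
    have h4 := INTM_TT Y a a 0 j
    rw [INTM_al_zero, one_mul, h1, INTM_SS, if_pos rfl, INTM_al_zero, star_one] at h4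
    exact h4.symm
  have h5 := INTM_TT Y a a 1 1
  rw [h1, INTM_SS, if_pos rfl, h3, mul_one] at h5
  have h6 : co (star (al τ ν 1)) 1 = -1 := by
    simp [QuadraticAlgebra.re_one, QuadraticAlgebra.im_one, co, al]
  have h7 : co (al τ ν 1) 1 = 1 := by
    simp [QuadraticAlgebra.re_one, QuadraticAlgebra.im_one, co, al]
  rw [h6, h7] at h5
  exact absurd h5 (by norm_num)

theorem th_TT (Y : Matrix (Fin g) (Fin g) (Oq τ ν)) (v : Fin (g * 2) → ℤ) :
    th τ ν (TT Y *ᵥ v) = Y *ᵥ th τ ν v := by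
  funext a
  have h1 : ∀ i : Fin 2, (TT Y *ᵥ v) ((pr g).symm (a, i)) =
      ∑ b : Fin g, ∑ j : Fin 2, co (al τ ν i * Y a b) j * v ((pr g).symm (b, j)) := by
    intro i
    rw [Matrix.mulVec, dotProduct, INTM_sum]
    refine Finset.sum_congr rfl fun b _ => Finset.sum_congr rfl fun j _ => ?_
    rw [INTM_TT]
  have h2 : th τ ν (TT Y *ᵥ v) a = ∑ b : Fin g, ∑ j : Fin 2, v ((pr g).symm (b, j)) •
      ∑ i : Fin 2, co (al τ ν i * Y a b) j • be τ ν i := by
    unfold th
    simp_rw [h1, Finset.sum_smul, Finset.smul_sum]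
    rw [Finset.sum_comm]
    refine Finset.sum_congr rfl fun b _ => ?_
    rw [Finset.sum_comm]
    refine Finset.sum_congr rfl fun j _ => Finset.sum_congr rfl fun i _ => ?_
    rw [smul_smul, mul_comm]
  rw [h2, Matrix.mulVec, dotProduct]
  refine Finset.sum_congr rfl fun b _ => ?_
  unfold th
  rw [Finset.mul_sum]
  refine Finset.sum_congr rfl fun j _ => ?_
  rw [INTM_be, mul_smul_comm]

theorem th_SS (v : Fin (g * 2) → ℤ) :
    th τ ν (SS τ ν g *ᵥ v) = fun a => -star (th τ ν v a) := by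
  funext a
  have h1 : ∀ i : Fin 2, (SS τ ν g *ᵥ v) ((pr g).symm (a, i)) =
      ∑ j : Fin 2, co (star (al τ ν i)) j * v ((pr g).symm (a, j)) := by
    intro i
    rw [Matrix.mulVec, dotProduct, INTM_sum, Finset.sum_eq_single a]
    · refine Finset.sum_congr rfl fun j _ => ?_
      rw [INTM_SS, if_pos rfl]
    · intro b _ hb
      refine Finset.sum_eq_zero fun j _ => ?_
      rw [INTM_SS, if_neg (Ne.symm hb), zero_mul]
    · intro h
      exact absurd (Finset.mem_univ a) h
  unfold th
  simp_rw [h1]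
  ext <;> simp [QuadraticAlgebra.re_one, QuadraticAlgebra.im_one, co, al, be, Fin.sum_univ_two] <;> ring

theorem th_add (v w : Fin (g * 2) → ℤ) : th τ ν (v + w) = th τ ν v + th τ ν w := by
  funext a
  simp only [th, Pi.add_apply, add_smul, Finset.sum_add_distrib]

theorem th_smul (n : ℤ) (v : Fin (g * 2) → ℤ) : th τ ν (n • v) = n • th τ ν v := by
  funext a
  simp only [th, Pi.smul_apply, smul_eq_mul, mul_smul, Finset.smul_sum]

theorem th_bij : Function.Bijective (th τ ν : (Fin (g * 2) → ℤ) → Fin g → Oq τ ν) := by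
  constructor
  · intro v w h
    funext k
    obtain ⟨⟨a, i⟩, rfl⟩ := (pr g).symm.surjective k
    have h1 := congrFun h a
    have h2 := congrArg QuadraticAlgebra.re h1
    have h3 := congrArg QuadraticAlgebra.im h1
    simp [QuadraticAlgebra.re_one, QuadraticAlgebra.im_one, th, be, Fin.sum_univ_two] at h2 h3
    fin_cases i
    · exact h3
    · change v ((pr g).symm (a, 1)) = w ((pr g).symm (a, 1))
      rw [h3] at h2
      linarith
  · intro z
    refine ⟨fun k => if (pr g k).2 = 0 then (z (pr g k).1).im else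
      (z (pr g k).1).re + τ * (z (pr g k).1).im, ?_⟩
    funext a
    ext <;> simp [QuadraticAlgebra.re_one, QuadraticAlgebra.im_one, th, be, Fin.sum_univ_two] <;> ring

/-- The integral matrix `MM M` is the Gram matrix of the trace form. -/
theorem MM_form (M : Matrix (Fin g) (Fin g) (Oq τ ν)) (v w : Fin (g * 2) → ℤ) :
    v ⬝ᵥ MM M *ᵥ w = QuadraticAlgebra.trace (star (th τ ν v) ⬝ᵥ M *ᵥ th τ ν w) := by
  rw [dotProduct, INTM_sum]
  have h1 : ∀ (a : Fin g) (i : Fin 2), (MM M *ᵥ w) ((pr g).symm (a, i)) =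
      QuadraticAlgebra.trace (star (be τ ν i) * (M *ᵥ th τ ν w) a) := by
    intro a i
    rw [Matrix.mulVec, dotProduct, INTM_sum, Matrix.mulVec, dotProduct, Finset.mul_sum, map_sum]
    refine Finset.sum_congr rfl fun b _ => ?_
    unfold th
    rw [Finset.mul_sum, Finset.mul_sum, map_sum]
    refine Finset.sum_congr rfl fun j _ => ?_
    rw [INTM_MM, mul_smul_comm, mul_smul_comm, map_smul, smul_eq_mul, mul_comm, mul_assoc]
  rw [dotProduct, map_sum]
  refine Finset.sum_congr rfl fun a _ => ?_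
  rw [Pi.star_apply]
  have h2 : star (th τ ν v a) = ∑ i : Fin 2, v ((pr g).symm (a, i)) • star (be τ ν i) := by
    unfold th
    rw [star_sum]
    refine Finset.sum_congr rfl fun i _ => ?_
    ext <;> simp
  rw [h2, Finset.sum_mul, map_sum]
  refine Finset.sum_congr rfl fun i _ => ?_
  rw [h1, smul_mul_assoc, map_smul, smul_eq_mul]

end LangCM
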