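import Pool.Agent.Lib_MP_f5471b_cm.IntF

/-!
# Piece INTP: the integral data attached to a form over the quadratic order
-/

set_option autoImplicit false

namespace LangCM

open Matrix LangForms Height NumberField WeierstrassCurve

variable {τ ν : ℤ} {g : ℕ}

variable {K F : Type} [Field K] [Field F] [DecidableEq F] [Algebra K F] {W : WeierstrassCurve K}

/-- The points `[α_i] P_a`. -/
def PP (cm : CMAct τ ν W F) (P : Fin g → (W.baseChange F).toAffine.Point) :
    Fin (g * 2) → (W.baseChange F).toAffine.Point :=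
  fun k => cm.act (al τ ν (pr g k).2) (P (pr g k).1)

private theorem intp_co_al (z : Oq τ ν) : ∑ j : Fin 2, co z j • al τ ν j = z := by
  rw [Fin.sum_univ_two]
  ext <;> simp [co, al]

private theorem intp_act_co (cm : CMAct τ ν W F) (z : Oq τ ν)
    (Q : (W.baseChange F).toAffine.Point) :
    ∑ j : Fin 2, co z j • cm.act (al τ ν j) Q = cm.act z Q := by
  conv_rhs => rw [← intp_co_al z]
  rw [Fin.sum_univ_two, Fin.sum_univ_two, map_add, map_zsmul, map_zsmul]
  rfl

private theorem intp_sum_pr {M : Type*} [AddCommMonoid M] (f : Fin (g * 2) → M) :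
    ∑ l, f l = ∑ b : Fin g, ∑ j : Fin 2, f ((pr g).symm (b, j)) := by
  rw [← Fintype.sum_prod_type' (fun b j => f ((pr g).symm (b, j)))]
  exact Fintype.sum_equiv (pr g) _ _ (fun l => by simp)

theorem PP_TT (cm : CMAct τ ν W F) (Y : Matrix (Fin g) (Fin g) (Oq τ ν))
    (P : Fin g → (W.baseChange F).toAffine.Point) (k : Fin (g * 2)) :
    ∑ l, TT Y k l • PP cm P l = PP cm (fun a => ∑ b, cm.act (Y a b) (P b)) k := by
  rw [intp_sum_pr]
  simp only [TT, PP, Matrix.of_apply, Equiv.apply_symm_apply]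
  rw [map_sum]
  refine Finset.sum_congr rfl fun b _ => ?_
  rw [intp_act_co, map_mul]
  rfl

theorem PP_SS (cm : CMAct τ ν W F) (P : Fin g → (W.baseChange F).toAffine.Point)
    (k : Fin (g * 2)) :
    ∑ l, SS τ ν g k l • PP cm P l = cm.act (star (al τ ν (pr g k).2)) (P (pr g k).1) := by
  rw [intp_sum_pr]
  simp only [SS, PP, Matrix.of_apply, Equiv.apply_symm_apply]
  rw [Finset.sum_eq_single (pr g k).1]
  · simp only [if_true]
    exact intp_act_co cm _ _
  · intro b _ hb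
    refine Finset.sum_eq_zero fun j _ => ?_
    rw [if_neg (Ne.symm hb), zero_smul]
  · intro h
    exact absurd (Finset.mem_univ _) h

private theorem intp_decomp (cm : CMAct τ ν W F) (β : Oq τ ν) :
    cm.inc β = (β.re : F) + (β.im : F) * cm.inc ⟨0, 1⟩ := by
  have h : β = (β.re : Oq τ ν) + (β.im : Oq τ ν) * ⟨0, 1⟩ := by
    ext <;> simp
  conv_lhs => rw [h]
  rw [map_add, map_mul, map_intCast, map_intCast]

private theorem intp_star (cm : CMAct τ ν W F) :
    cm.inc (star (⟨0, 1⟩ : Oq τ ν)) = (τ : F) - cm.inc ⟨0, 1⟩ := by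
  have h : star (⟨0, 1⟩ : Oq τ ν) = (τ : Oq τ ν) - ⟨0, 1⟩ := by
    ext <;> simp
  rw [h, map_sub, map_intCast]

private theorem intp_sq (cm : CMAct τ ν W F) :
    cm.inc ⟨0, 1⟩ * cm.inc ⟨0, 1⟩ = (τ : F) * cm.inc ⟨0, 1⟩ - (ν : F) := by
  have h : (⟨0, 1⟩ : Oq τ ν) * ⟨0, 1⟩ = (τ : Oq τ ν) * ⟨0, 1⟩ - (ν : Oq τ ν) := by
    ext <;> simp
  rw [← map_mul, h, map_sub, map_mul, map_intCast, map_intCast]

/-- An automorphism acts on the order trivially or by conjugation. PROOF. `σ (inc ω)` is a root of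
`x ^ 2 - τ x + ν = (x - inc ω) (x - inc (star ω))`. -/
theorem fix_or (cm : CMAct τ ν W F) (σ : F ≃ₐ[K] F) :
    cm.Fix σ ∨ ∀ β, σ (cm.inc β) = cm.inc (star β) := by
  have h1 : σ (cm.inc ⟨0, 1⟩) * σ (cm.inc ⟨0, 1⟩) =
      (τ : F) * σ (cm.inc ⟨0, 1⟩) - (ν : F) := by
    rw [← map_mul, intp_sq, map_sub, map_mul, map_intCast, map_intCast]
  have h2 : (σ (cm.inc ⟨0, 1⟩) - cm.inc ⟨0, 1⟩) *
      (σ (cm.inc ⟨0, 1⟩) - cm.inc (star (⟨0, 1⟩ : Oq τ ν))) = 0 := by
    rw [intp_star]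
    have h3 := intp_sq cm
    linear_combination h1 - h3
  rcases mul_eq_zero.1 h2 with h | h
  · left
    intro β
    rw [intp_decomp cm β, map_add, map_mul, map_intCast, map_intCast, sub_eq_zero.1 h]
  · right
    intro β
    have h4 : cm.inc (star β) = (β.re : F) + (β.im : F) * cm.inc (star (⟨0, 1⟩ : Oq τ ν)) := by
      have h5 : star β = (β.re : Oq τ ν) + (β.im : Oq τ ν) * star (⟨0, 1⟩ : Oq τ ν) := by
        ext <;> simp
        ring
      rw [h5, map_add, map_mul, map_intCast, map_intCast]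
    rw [intp_decomp cm β, map_add, map_mul, map_intCast, map_intCast, sub_eq_zero.1 h, h4]

private theorem intp_ne [CharZero F] (hD : τ ^ 2 < 4 * ν) (cm : CMAct τ ν W F) :
    cm.inc (star (⟨0, 1⟩ : Oq τ ν)) ≠ cm.inc ⟨0, 1⟩ := by
  intro h
  rw [intp_star] at h
  have h1 := intp_sq cm
  have h2 : ((τ ^ 2 - 4 * ν : ℤ) : F) = 0 := by
    push_cast
    have h3 : (τ : F) = 2 * cm.inc ⟨0, 1⟩ := by linear_combination h
    linear_combination ((τ : F) - 2 * cm.inc ⟨0, 1⟩) * h3 - 4 * h1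
  have h3 : (τ ^ 2 - 4 * ν : ℤ) = 0 := by exact_mod_cast h2
  omega

private theorem intp_notfix [CharZero F] (hD : τ ^ 2 < 4 * ν) (cm : CMAct τ ν W F)
    (σ : F ≃ₐ[K] F) (h : ∀ β, σ (cm.inc β) = cm.inc (star β)) : ¬ cm.Fix σ := by
  intro h1
  exact intp_ne hD cm ((h _).symm.trans (h1 _))

/-- PROOF. `inc` is injective because `O` is a domain of characteristic zero: use
`inc (ω) ≠ inc (star ω)` (their difference squared is `inc (τ ^ 2 - 4 ν) ≠ 0`). -/
theorem fix_mul [CharZero F] (hD : τ ^ 2 < 4 * ν) (cm : CMAct τ ν W F) (σ σ' : F ≃ₐ[K] F) :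
    cm.Fix (σ * σ') ↔ (cm.Fix σ ↔ cm.Fix σ') := by
  rcases fix_or cm σ with h | h <;> rcases fix_or cm σ' with h' | h'
  · have h2 : cm.Fix (σ * σ') := fun β => by
      rw [AlgEquiv.mul_apply, h' β, h β]
    tauto
  · have h3 := intp_notfix hD cm σ' h'
    have h2 : ¬ cm.Fix (σ * σ') := intp_notfix hD cm _ fun β => by
      rw [AlgEquiv.mul_apply, h' β, h (star β)]
    tauto
  · have h3 := intp_notfix hD cm σ h
    have h2 : ¬ cm.Fix (σ * σ') := intp_notfix hD cm _ fun β => by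
      rw [AlgEquiv.mul_apply, h' β, h β]
    tauto
  · have h3 := intp_notfix hD cm σ h
    have h4 := intp_notfix hD cm σ' h'
    have h2 : cm.Fix (σ * σ') := fun β => by
      rw [AlgEquiv.mul_apply, h' β, h (star β), star_star]
    tauto

/-- The homomorphism to `GL_{2g}(ℤ)` attached to a cocycle: `TT (ρ σ)` or `TT (ρ σ) * SS`.
PROOF of multiplicativity: `fix_mul`, `TT_mul`, `SS_TT`, `SS_sq` (four cases). -/
theorem exists_hom [CharZero F] (hD : τ ^ 2 < 4 * ν) (cm : CMAct τ ν W F)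
    (ρ : (F ≃ₐ[K] F) → Matrix (Fin g) (Fin g) (Oq τ ν)) (hρ : IsCocycle cm ρ) :
    ∃ R : (F ≃ₐ[K] F) →* Matrix.GeneralLinearGroup (Fin (g * 2)) ℤ,
      (∀ σ, cm.Fix σ → (R σ).val = TT (ρ σ)) ∧
      (∀ σ, ¬ cm.Fix σ → (R σ).val = TT (ρ σ) * SS τ ν g) := by
  classical
  obtain ⟨hρ1, hρm⟩ := hρ
  have hcjT : ∀ σ, cm.Fix σ → (cj (cm.Fix σ) : Oq τ ν → Oq τ ν) = id := by
    intro σ h
    funext x
    simp [cj, h]
  have hcjF : ∀ σ, ¬ cm.Fix σ → (cj (cm.Fix σ) : Oq τ ν → Oq τ ν) = star := by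
    intro σ h
    funext x
    simp [cj, h]
  have hfix1 : cm.Fix 1 := fun β => rfl
  let N : (F ≃ₐ[K] F) →* Matrix (Fin (g * 2)) (Fin (g * 2)) ℤ :=
    { toFun := fun σ => if cm.Fix σ then TT (ρ σ) else TT (ρ σ) * SS τ ν g
      map_one' := by
        rw [if_pos hfix1, hρ1, TT_one]
      map_mul' := by
        intro σ σ'
        have hm := fix_mul hD cm σ σ'
        by_cases h : cm.Fix σ <;> by_cases h' : cm.Fix σ'
        · have h2 : cm.Fix (σ * σ') := hm.2 (by tauto)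
          simp only [if_pos h, if_pos h', if_pos h2]
          rw [hρm, hcjT σ h, Matrix.map_id, TT_mul]
        · have h2 : ¬ cm.Fix (σ * σ') := fun h3 => by
            have := hm.1 h3
            tauto
          simp only [if_pos h, if_neg h', if_neg h2]
          rw [hρm, hcjT σ h, Matrix.map_id, TT_mul, Matrix.mul_assoc]
        · have h2 : ¬ cm.Fix (σ * σ') := fun h3 => by
            have := hm.1 h3
            tauto
          simp only [if_neg h, if_pos h', if_neg h2]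
          rw [hρm, hcjF σ h, TT_mul, Matrix.mul_assoc, ← SS_TT, Matrix.mul_assoc]
        · have h2 : cm.Fix (σ * σ') := hm.2 (by tauto)
          simp only [if_neg h, if_neg h', if_pos h2]
          rw [hρm, hcjF σ h, TT_mul, Matrix.mul_assoc (TT (ρ σ)), ← Matrix.mul_assoc (SS τ ν g),
            SS_TT, Matrix.mul_assoc (TT ((ρ σ').map star)), SS_sq, Matrix.mul_one] }
  refine ⟨N.toHomUnits, ?_, ?_⟩
  · intro σ h
    change N σ = _
    exact if_pos h
  · intro σ h
    change N σ = _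
    exact if_neg h

/-- PROOF. Linear case: `PP_TT` with the points `gal σ (P b)` and `cm.gal`. Semilinear case: in
addition `PP_SS`: `gal σ (PP cm P l) = act (star (al l.2)) (gal σ (P l.1))`. -/
theorem PP_kpoint (cm : CMAct τ ν W F) (ρ : (F ≃ₐ[K] F) → Matrix (Fin g) (Fin g) (Oq τ ν))
    (P : Fin g → (W.baseChange F).toAffine.Point) (hP : IsKPointO cm ρ P)
    (R : (F ≃ₐ[K] F) →* Matrix.GeneralLinearGroup (Fin (g * 2)) ℤ)
    (hR1 : ∀ σ, cm.Fix σ → (R σ).val = TT (ρ σ))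
    (hR2 : ∀ σ, ¬ cm.Fix σ → (R σ).val = TT (ρ σ) * SS τ ν g) (σ : F ≃ₐ[K] F)
    (k : Fin (g * 2)) :
    ∑ l, (R σ).val k l • LangForms.gal σ (PP cm P l) = PP cm P k := by
  classical
  have hfin : ∑ l, TT (ρ σ) k l • PP cm (fun b => LangForms.gal σ (P b)) l = PP cm P k := by
    rw [PP_TT]
    congr 1
    funext a
    exact hP σ a
  have hgal : ∀ l, LangForms.gal σ (PP cm P l) =
      cm.act (cj (cm.Fix σ) (al τ ν (pr g l).2)) (LangForms.gal σ (P (pr g l).1)) := by
    intro l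
    exact cm.gal σ _ _
  by_cases h : cm.Fix σ
  · rw [hR1 σ h, ← hfin]
    refine Finset.sum_congr rfl fun l _ => ?_
    rw [hgal l]
    simp [cj, h, PP]
  · rw [hR2 σ h, ← hfin]
    have h1 : ∀ l, LangForms.gal σ (PP cm P l) =
        ∑ m, SS τ ν g l m • PP cm (fun b => LangForms.gal σ (P b)) m := by
      intro l
      rw [PP_SS, hgal l]
      simp [cj, h]
    simp_rw [h1, Finset.smul_sum, smul_smul]
    rw [Finset.sum_comm]
    refine Finset.sum_congr rfl fun m _ => ?_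
    rw [← Finset.sum_smul]
    congr 1
    have h2 : ((TT (ρ σ) * SS τ ν g) * SS τ ν g) k m = TT (ρ σ) k m := by
      rw [Matrix.mul_assoc, SS_sq, Matrix.mul_one]
    rw [← h2, Matrix.mul_apply]

end LangCM
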