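import Pool.Agent.Lib_MP_f5471b_cm.Defs
import Pool.Agent.Lib_MP_f5471b_nt.Final

/-!
# Piece RATA: heights under rational functions of the `x`-coordinate
-/

set_option autoImplicit false

namespace LangCM

open LangForms Height NumberField WeierstrassCurve Topology Filter

/-- Heights under a rational function of the `x`-coordinate (only the upper bound is needed).
PROOF. Homogenise: `p₀ = ∑ A_i X^i Z^(N-i)`, `p₁ = ∑ B_i X^i Z^(N-i)` as polynomials in two variables
(`MvPolynomial (Fin 2) F`), homogeneous of degree `N`; by `Height.logHeight_eval_le'` there is `C`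
with `logHeight (p₀(x), p₁(x)) ≤ C + N logHeight x` for all `x : Fin 2 → F`. For `x = ![x, 1]` and
`B(x) ≠ 0`, `(A(x), B(x)) = B(x) • ![A(x)/B(x), 1]`, and `logHeight` is invariant under scaling
(`Height.logHeight_smul_eq_logHeight`). -/
theorem logHeight_ratfun_le {F : Type} [Field F] [NumberField F] (A B : Polynomial F) (N : ℕ)
    (hA : A.natDegree ≤ N) (hB : B.natDegree ≤ N) :
    ∃ C : ℝ, ∀ x : F, B.eval x ≠ 0 →
      logHeight ![A.eval x / B.eval x, 1] ≤ C + N * logHeight ![x, 1] := by
  have hhom : ∀ i : Fin 2, (![A.homogenize N, B.homogenize N] i).IsHomogeneous N := by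
    intro i
    fin_cases i
    · exact Polynomial.isHomogeneous_homogenize A
    · exact Polynomial.isHomogeneous_homogenize B
  obtain ⟨C, hC⟩ := logHeight_eval_le' (K := F) (ι := Fin 2) (ι' := Fin 2) hhom
  refine ⟨C, fun x hx => ?_⟩
  have h := hC ![x, 1]
  have e : (fun j => (![A.homogenize N, B.homogenize N] j).eval ![x, 1]) =
      (B.eval x) • ![A.eval x / B.eval x, 1] := by
    have h1 : (![x, 1] : Fin 2 → F) 1 ≠ 0 := by simp
    funext j
    fin_cases j
    · have h2 := Polynomial.eval_homogenize hA ![x, 1] h1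
      simp only [Matrix.cons_val_zero, Matrix.cons_val_one, div_one, one_pow, mul_one] at h2
      simp only [Fin.zero_eta, Matrix.cons_val_zero, Pi.smul_apply, smul_eq_mul]
      rw [mul_div_cancel₀ _ hx]
      exact h2
    · have h2 := Polynomial.eval_homogenize hB ![x, 1] h1
      simp only [Matrix.cons_val_zero, Matrix.cons_val_one, div_one, one_pow, mul_one] at h2
      change MvPolynomial.eval ![x, 1] (B.homogenize N) = B.eval x * 1
      rw [mul_one]
      exact h2
  rw [e, logHeight_smul_eq_logHeight _ hx] at h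
  exact h

/-- `h(x([α] Q)) ≤ N(α) h(x(Q)) + C`. PROOF. From `cm.rat` and `logHeight_ratfun_le`; the points
`Q = 0` and the points with `[α] Q = 0` are trivial as `hx 0 = 0 ≤ hx Q`
(`hx Q = logHeight Q.xRep`, `xRep 0 = ![1, 0]`, `xRep (x, y) = ![x, 1]`). -/
theorem hx_act_le {K F : Type} [Field K] [NumberField K] [Field F] [NumberField F] [DecidableEq F]
    [Algebra K F] {W : WeierstrassCurve K} {τ ν : ℤ} (cm : CMAct τ ν W F) (α : Oq τ ν) (hα : α ≠ 0) :
    ∃ C : ℝ, ∀ Q : (W.baseChange F).toAffine.Point,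
      hx (cm.act α Q) ≤ α.norm * hx Q + C := by
  obtain ⟨A, B, _, hA, hB, h⟩ := cm.rat α hα
  obtain ⟨C, hC⟩ := logHeight_ratfun_le A B A.natDegree le_rfl (by omega)
  have hn1 : (1 : ℝ) ≤ (α.norm : ℝ) := by
    have : (1 : ℤ) ≤ α.norm := by omega
    exact_mod_cast this
  have hnA : ((A.natDegree : ℕ) : ℝ) = (α.norm : ℝ) := by
    exact_mod_cast congrArg (Int.cast (R := ℝ)) hA
  have hnn : ∀ Q : (W.baseChange F).toAffine.Point, 0 ≤ hx Q := fun Q => logHeight_nonneg _
  refine ⟨max C (hx (0 : (W.baseChange F).toAffine.Point)), fun Q => ?_⟩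
  have hz : hx (0 : (W.baseChange F).toAffine.Point) ≤
      α.norm * hx Q + max C (hx (0 : (W.baseChange F).toAffine.Point)) := by
    have h1 : 0 ≤ (α.norm : ℝ) * hx Q := mul_nonneg (by linarith) (hnn Q)
    have h2 := le_max_right C (hx (0 : (W.baseChange F).toAffine.Point))
    linarith
  rcases Q with _ | ⟨x, y, hxy⟩
  · have h0 : cm.act α (Affine.Point.zero : (W.baseChange F).toAffine.Point) = 0 :=
      map_zero (cm.act α)
    rw [h0]
    exact hz
  · obtain ⟨h1, h2⟩ := h x y hxy
    by_cases hb : B.eval x = 0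
    · rw [h1 hb]
      exact hz
    · obtain ⟨y', h', he⟩ := h2 hb
      rw [he]
      have h3 := hC x hb
      rw [hnA] at h3
      have h4 := le_max_left C (hx (0 : (W.baseChange F).toAffine.Point))
      unfold hx at h4 ⊢
      rw [Affine.Point.xRep_some, Affine.Point.xRep_some]
      linarith

end LangCM
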